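import Mathlib

/-!
# Sets null on all translates of a finite-dimensional subspace decompose in null sets along lines
-/

open MeasureTheory Set

namespace Pool.Agent.Helper58.Gat

variable {X : Type*} [NormedAddCommGroup X] [NormedSpace ℝ X] [MeasurableSpace X] [BorelSpace X]

lemma measurable_line_measure (u : X) {A : Set X} (hA : MeasurableSet A) : 
    Measurable (fun x : X => volume {t : ℝ | x + t • u ∈ A}) := by
  have hm : Measurable (fun q : X × ℝ => q.1 + q.2 • u) := by
    have : Continuous (fun q : X × ℝ => q.1 + q.2 • u) := by fun_prop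
    exact this.measurable
  exact measurable_measure_prodMk_left (hm hA)

omit [MeasurableSpace X] [BorelSpace X] in
lemma line_measure_translate (u x : X) (s : ℝ) (A : Set X) : 
    volume {t : ℝ | x + s • u + t • u ∈ A} = volume {t : ℝ | x + t • u ∈ A} := by
  have h := measure_preimage_add_right (volume : Measure ℝ) s {t : ℝ | x + t • u ∈ A}
  rw [← h]
  congr 1
  ext t
  simp only [mem_preimage, mem_ofPred_eq]
  rw [add_smul, add_comm (t • u), add_assoc]

theorem decomp (d : ℕ) : ∀ (u : Fin d → X) (A : Set X), MeasurableSet A → 
    (∀ x, volume {t : Fin d → ℝ | x + ∑ i, t i • u i ∈ A} = 0) → 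
    ∃ B : Fin d → Set X, (∀ i, MeasurableSet (B i)) ∧ 
      (∀ i x, volume {t : ℝ | x + t • u i ∈ B i} = 0) ∧ A ⊆ ⋃ i, B i := by
  induction d with
  | zero =>
    intro u A _ hnull
    refine ⟨fun i => ∅, fun i => MeasurableSet.empty, fun i => i.elim0, ?_⟩
    intro x hx
    exfalso
    have h1 := hnull x
    have h2 : {t : Fin 0 → ℝ | x + ∑ i, t i • u i ∈ A} = univ := by
      ext t
      simp [hx]
    rw [h2, volume_pi, Measure.pi_of_empty] at h1
    simp at h1
  | succ d ih =>
    intro u A hA hnull
    set φ : X → ENNReal := fun x => volume {t : ℝ | x + t • u 0 ∈ A} with hφ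
    have hφm : Measurable φ := measurable_line_measure (u 0) hA
    set A' : Set X := {x | φ x ≠ 0} with hA'
    have hA'm : MeasurableSet A' := by
      have : A' = (φ ⁻¹' {0})ᶜ := by
        ext x; simp [hA']
      rw [this]
      exact (hφm (measurableSet_singleton 0)).compl
    have hnull' : ∀ x, volume {t : Fin d → ℝ | x + ∑ i, t i • u i.succ ∈ A'} = 0 := by
      intro x
      set e := MeasurableEquiv.piFinSuccAbove (fun _ : Fin (d + 1) => ℝ) 0 with he
      have hmp : MeasurePreserving e volume volume := 
        volume_preserving_piFinSuccAbove (fun _ : Fin (d + 1) => ℝ) 0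
      set T : Set ((Fin d → ℝ) × ℝ) := {q | x + ∑ i, q.1 i • u i.succ + q.2 • u 0 ∈ A} with hT
      have hTm : MeasurableSet T := by
        have hc : Continuous (fun q : (Fin d → ℝ) × ℝ => x + ∑ i, q.1 i • u i.succ + q.2 • u 0) := by
          fun_prop
        exact hc.measurable hA
      have hT0 : (volume.prod volume : Measure ((Fin d → ℝ) × ℝ)) T = 0 := by
        have h1 : (volume.prod volume : Measure (ℝ × (Fin d → ℝ))) (Prod.swap ⁻¹' T) = 
            (volume.prod volume : Measure ((Fin d → ℝ) × ℝ)) T := 
          Measure.measurePreserving_swap.measure_preimage hTm.nullMeasurableSet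
        rw [← h1]
        have h2 : volume (e ⁻¹' (Prod.swap ⁻¹' T)) = 
            (volume : Measure (ℝ × (Fin d → ℝ))) (Prod.swap ⁻¹' T) := 
          hmp.measure_preimage (measurable_swap hTm).nullMeasurableSet
        have h3 : e ⁻¹' (Prod.swap ⁻¹' T) = {t : Fin (d + 1) → ℝ | x + ∑ i, t i • u i ∈ A} := by
          ext t
          simp only [mem_preimage, hT, mem_ofPred_eq]
          rw [Fin.sum_univ_succ]
          have e1 : (Prod.swap (e t)).1 = fun i : Fin d => t i.succ := by
            ext i; rfl
          have e2 : (Prod.swap (e t)).2 = t 0 := rfl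
          rw [e1, e2]
          have e3 : x + ∑ i : Fin d, t i.succ • u i.succ + t 0 • u 0 = 
              x + (t 0 • u 0 + ∑ i : Fin d, t i.succ • u i.succ) := by abel
          rw [e3]
        rw [h3, hnull x] at h2
        exact h2.symm
      rw [Measure.measure_prod_null hTm] at hT0
      have h4 : {t : Fin d → ℝ | x + ∑ i, t i • u i.succ ∈ A'} = 
          {t : Fin d → ℝ | ¬ (volume (Prod.mk t ⁻¹' T) = (0 : (Fin d → ℝ) → ENNReal) t)} := by
        ext t
        simp only [hA', hφ, mem_ofPred_eq, hT, Pi.zero_apply]
        rfl
      rw [h4]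
      exact hT0
    obtain ⟨B', hB'm, hB'n, hB'c⟩ := ih (fun i => u i.succ) A' hA'm hnull'
    refine ⟨Fin.cons (A \ A') B', ?_, ?_, ?_⟩
    · intro i
      refine Fin.cases ?_ ?_ i
      · exact hA.diff hA'm
      · exact hB'm
    · intro i
      refine Fin.cases ?_ ?_ i
      · intro x
        simp only [Fin.cons_zero]
        by_cases hx : φ x = 0
        · refine measure_mono_null ?_ hx
          intro t ht
          exact ht.1
        · have : {t : ℝ | x + t • u 0 ∈ A \ A'} = ∅ := by
            ext t
            simp only [mem_ofPred_eq, mem_empty_iff_false, iff_false]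
            intro ht
            apply ht.2
            show φ (x + t • u 0) ≠ 0
            rw [hφ]
            simp only
            rw [line_measure_translate]
            exact hx
          rw [this]
          simp
      · intro i x
        simp only [Fin.cons_succ]
        exact hB'n i x
    · intro x hx
      rw [mem_iUnion]
      by_cases hx' : x ∈ A'
      · obtain ⟨i, hi⟩ := mem_iUnion.mp (hB'c hx')
        exact ⟨i.succ, by simpa using hi⟩
      · exact ⟨0, by simpa using ⟨hx, hx'⟩⟩

end Pool.Agent.Helper58.Gat
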