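import Pool.Agent.Helper58.Gat.InfConv

/-!
# The base norm: smooth along `S`, convex along `R`
-/

open Filter Topology

open scoped InnerProductSpace

namespace Pool.Agent.Helper58.Gat

variable {X : Type*} [NormedAddCommGroup X] [NormedSpace ℝ X]
variable {H : Type*} [NormedAddCommGroup H] [InnerProductSpace ℝ H] [CompleteSpace H]

lemma sqrt_add_le (a b c d : ℝ) : 
    Real.sqrt ((a + c) ^ 2 + (b + d) ^ 2) ≤ Real.sqrt (a ^ 2 + b ^ 2) + Real.sqrt (c ^ 2 + d ^ 2) := by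
  apply Real.sqrt_le_iff.mpr
  refine ⟨by positivity, ?_⟩
  have h1 : Real.sqrt (a ^ 2 + b ^ 2) ^ 2 = a ^ 2 + b ^ 2 := Real.sq_sqrt (by positivity)
  have h2 : Real.sqrt (c ^ 2 + d ^ 2) ^ 2 = c ^ 2 + d ^ 2 := Real.sq_sqrt (by positivity)
  have h3 : a * c + b * d ≤ Real.sqrt (a ^ 2 + b ^ 2) * Real.sqrt (c ^ 2 + d ^ 2) := by
    apply (abs_le_of_sq_le_sq' _ (by positivity)).2
    rw [mul_pow, h1, h2]
    nlinarith [sq_nonneg (a * d - b * c)]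
  nlinarith

lemma continuous_normSeminorm : Continuous (normSeminorm ℝ X) := continuous_norm

/-- the base norm -/
noncomputable def rr (S : H →L[ℝ] X) (R : X →L[ℝ] H) : Seminorm ℝ X := 
  Seminorm.of (fun x => Real.sqrt (icv (normSeminorm ℝ X) S x ^ 2 + ‖R x‖ ^ 2)) 
    (by
      intro x y
      refine le_trans ?_ (sqrt_add_le (icv (normSeminorm ℝ X) S x) ‖R x‖ (icv (normSeminorm ℝ X) S y) ‖R y‖)
      apply Real.sqrt_le_sqrt
      have h1 := icv_add_le (continuous_normSeminorm (X := X)) S x y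
      have h2 : ‖R (x + y)‖ ≤ ‖R x‖ + ‖R y‖ := by rw [map_add]; exact norm_add_le _ _
      have h3 := pow_le_pow_left₀ (icv_nonneg _ S (x + y)) h1 2
      have h4 := pow_le_pow_left₀ (norm_nonneg _) h2 2
      linarith)
    (by
      intro c x
      rw [icv_smul continuous_normSeminorm, map_smul, norm_smul, Real.norm_eq_abs, mul_pow, mul_pow, 
        ← mul_add, Real.sqrt_mul (by positivity), Real.sqrt_sq (abs_nonneg c)])

lemma rr_sq (S : H →L[ℝ] X) (R : X →L[ℝ] H) (x : X) : 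
    rr S R x ^ 2 = icv (normSeminorm ℝ X) S x ^ 2 + ‖R x‖ ^ 2 := Real.sq_sqrt (by positivity)

lemma rr_le {S : H →L[ℝ] X} {R : X →L[ℝ] H} (hR : ∀ x, ‖R x‖ ≤ ‖x‖) (x : X) : 
    rr S R x ≤ 2 * ‖x‖ := by
  have h1 := icv_le (continuous_normSeminorm (X := X)) S x
  have h1' : icv (normSeminorm ℝ X) S x ≤ ‖x‖ := h1
  have h2 := pow_le_pow_left₀ (icv_nonneg _ S x) h1' 2
  have h3 := pow_le_pow_left₀ (norm_nonneg _) (hR x) 2
  have h4 := rr_sq S R x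
  apply (abs_le_of_sq_le_sq' _ (by positivity)).2
  nlinarith [norm_nonneg x]

lemma le_rr {S : H →L[ℝ] X} (hS : ∀ β, ‖S β‖ ≤ ‖β‖) (R : X →L[ℝ] H) (x : X) : 
    ‖x‖ ≤ 2 * rr S R x := by
  set b := argm (normSeminorm ℝ X) S x with hb
  have h1 : ‖x‖ ≤ ‖x - S b‖ + ‖b‖ := by
    calc ‖x‖ = ‖(x - S b) + S b‖ := by congr 1; abel
      _ ≤ ‖x - S b‖ + ‖S b‖ := norm_add_le _ _
      _ ≤ _ := by linarith [hS b]
  have h2 := icv_sq (normSeminorm ℝ X) S x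
  rw [← hb] at h2
  have h2' : icv (normSeminorm ℝ X) S x ^ 2 = ‖x - S b‖ ^ 2 + ‖b‖ ^ 2 := h2
  have h3 := rr_sq S R x
  have h4 : 0 ≤ rr S R x := apply_nonneg _ x
  apply (abs_le_of_sq_le_sq' _ (by positivity)).2
  have h5 : ‖x‖ ^ 2 ≤ (‖x - S b‖ + ‖b‖) ^ 2 := pow_le_pow_left₀ (norm_nonneg _) h1 2
  nlinarith [sq_nonneg (‖x - S b‖ - ‖b‖), sq_nonneg ‖R x‖]

lemma rr_S_le {S : H →L[ℝ] X} {R : X →L[ℝ] H} (hS : ∀ β, ‖S β‖ ≤ ‖β‖) (hR : ∀ x, ‖R x‖ ≤ ‖x‖) (β : H) : 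
    rr S R (S β) ≤ 2 * ‖β‖ := by
  have h1 := icv_sq_le (continuous_normSeminorm (X := X)) S (S β) β
  rw [sub_self, map_zero] at h1
  have h2 : ‖R (S β)‖ ^ 2 ≤ ‖β‖ ^ 2 := pow_le_pow_left₀ (norm_nonneg _) ((hR _).trans (hS β)) 2
  have h3 := rr_sq S R (S β)
  apply (abs_le_of_sq_le_sq' _ (by positivity)).2
  nlinarith [norm_nonneg β]

lemma rr_smooth {S : H →L[ℝ] X} {R : X →L[ℝ] H} (hS : ∀ β, ‖S β‖ ≤ ‖β‖) (hR : ∀ x, ‖R x‖ ≤ ‖x‖) 
    (y : X) (hy : 0 < rr S R y) (β : H) : 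
    rr S R (y + S β) + rr S R (y - S β) ≤ 2 * rr S R y + 2 * ‖β‖ ^ 2 / rr S R y := by
  have h1 := icv_smooth (continuous_normSeminorm (X := X)) S y β
  have h2 := icv_smooth (continuous_normSeminorm (X := X)) S y (-β)
  rw [map_neg, ← sub_eq_add_neg, inner_neg_right, norm_neg] at h2
  have h3 := rr_sq S R y
  have h4 := rr_sq S R (y + S β)
  have h5 := rr_sq S R (y - S β)
  have h6 : ‖R (y + S β)‖ ^ 2 + ‖R (y - S β)‖ ^ 2 = 2 * ‖R y‖ ^ 2 + 2 * ‖R (S β)‖ ^ 2 := by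
    have := parallelogram_law_with_norm ℝ (R y) (R (S β))
    rw [map_add, map_sub]
    linarith
  have h7 : ‖R (S β)‖ ^ 2 ≤ ‖β‖ ^ 2 := pow_le_pow_left₀ (norm_nonneg _) ((hR _).trans (hS β)) 2
  have h8 : rr S R (y + S β) ^ 2 + rr S R (y - S β) ^ 2 ≤ 2 * rr S R y ^ 2 + 4 * ‖β‖ ^ 2 := by
    linarith
  set r := rr S R y
  set r1 := rr S R (y + S β)
  set r2 := rr S R (y - S β)
  have h9 : 2 * r + 2 * ‖β‖ ^ 2 / r = (4 * r ^ 2 + 4 * ‖β‖ ^ 2) / (2 * r) := by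
    field_simp
    ring
  rw [h9, le_div_iff₀ (by positivity)]
  nlinarith [sq_nonneg (r1 - r), sq_nonneg (r2 - r)]

lemma rr_convex (S : H →L[ℝ] X) (R : X →L[ℝ] H) (x x' : X) : 
    ‖R (x - x')‖ ^ 2 ≤ 2 * rr S R x ^ 2 + 2 * rr S R x' ^ 2 - rr S R (x + x') ^ 2 := by
  rw [rr_sq, rr_sq, rr_sq]
  have h1 := icv_add_le (continuous_normSeminorm (X := X)) S x x'
  have h2 := pow_le_pow_left₀ (icv_nonneg _ S (x + x')) h1 2
  have h3 : ‖R (x + x')‖ ^ 2 + ‖R (x - x')‖ ^ 2 = 2 * ‖R x‖ ^ 2 + 2 * ‖R x'‖ ^ 2 := by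
    have := parallelogram_law_with_norm ℝ (R x) (R x')
    rw [map_add, map_sub]
    linarith
  nlinarith [sq_nonneg (icv (normSeminorm ℝ X) S x - icv (normSeminorm ℝ X) S x')]

end Pool.Agent.Helper58.Gat
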