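import Pool.Agent.Helper58.Gat.P2

/-!
# Existence of the operators `S`, `R` and of the norming functionals
-/

open Filter Topology

open scoped InnerProductSpace

namespace Pool.Agent.Helper58.Gat

/-- the Hilbert space `ℓ²` -/
abbrev l2 : Type := lp (fun _ : ℕ => ℝ) 2

variable {X : Type*} [NormedAddCommGroup X] [NormedSpace ℝ X] [CompleteSpace X]
  [TopologicalSpace.SeparableSpace X]

/-- coordinates on `ℓ²` -/
noncomputable def crd (j : ℕ) : l2 →L[ℝ] ℝ := lp.evalCLM ℝ (fun _ : ℕ => ℝ) 2 j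

lemma abs_crd_le (j : ℕ) (b : l2) : |crd j b| ≤ ‖b‖ := 
  lp.norm_apply_le_norm (by norm_num) b j

/-- unit vectors of `ℓ²` -/
noncomputable def ev (j : ℕ) : l2 := lp.single 2 j (1 : ℝ)

lemma norm_ev (j : ℕ) : ‖ev j‖ = 1 := by
  unfold ev
  rw [lp.norm_single (by norm_num)]
  simp

lemma crd_ev (i j : ℕ) : crd i (ev j) = if i = j then 1 else 0 := by
  show (ev j : ℕ → ℝ) i = _
  unfold ev
  rw [lp.single_apply]
  by_cases h : i = j
  · subst h; simp
  · simp [h]

/-- the weights -/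
noncomputable def wgt (v : ℕ → X) (j : ℕ) : ℝ := (1 / 2) ^ (j + 1) * (1 + ‖v j‖)⁻¹

omit [NormedSpace ℝ X] [CompleteSpace X] [TopologicalSpace.SeparableSpace X] in
lemma wgt_pos (v : ℕ → X) (j : ℕ) : 0 < wgt v j := by unfold wgt; positivity

omit [NormedSpace ℝ X] [CompleteSpace X] [TopologicalSpace.SeparableSpace X] in
lemma wgt_mul_le (v : ℕ → X) (j : ℕ) : wgt v j * ‖v j‖ ≤ (1 / 2) ^ (j + 1) := by
  unfold wgt
  rw [mul_assoc]
  apply mul_le_of_le_one_right (by positivity)
  rw [inv_mul_le_iff₀ (by positivity)]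
  linarith [norm_nonneg (v j)]

lemma summable_half : Summable (fun j : ℕ => (1 / 2 : ℝ) ^ (j + 1)) := by
  have := summable_geometric_two.mul_left (1 / 2 : ℝ)
  refine this.congr (fun j => ?_)
  rw [pow_succ]; ring

lemma tsum_half : ∑' j : ℕ, (1 / 2 : ℝ) ^ (j + 1) = 1 := by
  have h1 : ∑' j : ℕ, (1 / 2 : ℝ) ^ (j + 1) = ∑' j : ℕ, (1 / 2 : ℝ) * (1 / 2) ^ j := by
    apply tsum_congr
    intro j
    rw [pow_succ]; ring
  rw [h1, tsum_mul_left, tsum_geometric_two]
  norm_num

/-- existence of `S` -/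
theorem exists_S : ∃ S : l2 →L[ℝ] X, (∀ β, ‖S β‖ ≤ ‖β‖) ∧ DenseRange S ∧ 
    ∀ (G : ℕ → (X →L[ℝ] ℝ)) (Γ : ℝ), (∀ n x, |G n x| ≤ Γ * ‖x‖) → 
      (∀ x, Tendsto (fun n => G n x) atTop (𝓝 0)) → 
      ∃ τ : ℕ → ℝ, Tendsto τ atTop (𝓝 0) ∧ ∀ n β, |G n (S β)| ≤ τ n * ‖β‖ := by
  set v : ℕ → X := TopologicalSpace.denseSeq X with hv
  set A : ℕ → (l2 →L[ℝ] X) := fun j => (crd j).smulRight (wgt v j • v j) with hA
  have hAapp : ∀ j b, A j b = crd j b • (wgt v j • v j) := fun j b => rfl
  have hAn : ∀ j, ‖A j‖ ≤ (1 / 2) ^ (j + 1) := by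
    intro j
    apply ContinuousLinearMap.opNorm_le_bound _ (by positivity)
    intro b
    rw [hAapp, norm_smul, norm_smul, Real.norm_eq_abs, Real.norm_eq_abs, abs_of_pos (wgt_pos v j)]
    calc |crd j b| * (wgt v j * ‖v j‖) ≤ ‖b‖ * (1 / 2) ^ (j + 1) := 
          mul_le_mul (abs_crd_le j b) (wgt_mul_le v j) (mul_nonneg (wgt_pos v j).le (norm_nonneg _)) 
            (norm_nonneg _)
      _ = (1 / 2) ^ (j + 1) * ‖b‖ := mul_comm _ _
  have hsum : Summable A := Summable.of_norm_bounded summable_half hAn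
  set S : l2 →L[ℝ] X := ∑' j, A j with hS
  have hSapp : ∀ b, HasSum (fun j => A j b) (S b) := by
    intro b
    exact hsum.hasSum.mapL (ContinuousLinearMap.apply ℝ X b)
  have hSn : ‖S‖ ≤ 1 := by
    have h1 : Summable (fun j => ‖A j‖) := Summable.of_nonneg_of_le (fun _ => norm_nonneg _) hAn summable_half
    refine (norm_tsum_le_tsum_norm h1).trans ?_
    rw [← tsum_half]
    exact h1.tsum_le_tsum hAn summable_half
  refine ⟨S, fun β => ?_, ?_, ?_⟩
  · have := S.le_opNorm β
    have h2 : ‖S‖ * ‖β‖ ≤ 1 * ‖β‖ := mul_le_mul_of_nonneg_right hSn (norm_nonneg _)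
    linarith
  · -- dense range
    have hmem : ∀ j, v j ∈ Set.range S := by
      intro j
      refine ⟨(wgt v j)⁻¹ • ev j, ?_⟩
      have h1 : S (ev j) = wgt v j • v j := by
        apply (hSapp (ev j)).unique
        have h2 : ∀ i, i ≠ j → A i (ev j) = 0 := by
          intro i hi
          rw [hAapp, crd_ev, if_neg hi, zero_smul]
        have h3 := hasSum_single j h2
        rw [hAapp, crd_ev, if_pos rfl, one_smul] at h3
        exact h3
      rw [map_smul, h1, smul_smul, inv_mul_cancel₀ (wgt_pos v j).ne', one_smul]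
    have hd : DenseRange v := TopologicalSpace.denseRange_denseSeq X
    exact Dense.mono (by rintro _ ⟨j, rfl⟩; exact hmem j) hd
  · intro G Γ hΓ hG
    refine ⟨fun n => ∑' j, wgt v j * |G n (v j)|, ?_, ?_⟩
    · have h1 := tendsto_tsum_of_dominated_convergence (𝓕 := atTop) 
        (f := fun n j => wgt v j * |G n (v j)|) (g := fun _ => (0 : ℝ)) 
        (bound := fun j => |Γ| * (1 / 2) ^ (j + 1)) (summable_half.mul_left |Γ|) 
        (by
          intro j
          have := ((hG (v j)).abs).const_mul (wgt v j)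
          simpa using this) 
        (by
          apply Filter.Eventually.of_forall
          intro n j
          rw [Real.norm_eq_abs, abs_mul, abs_abs, abs_of_pos (wgt_pos v j)]
          have h2 : |G n (v j)| ≤ |Γ| * ‖v j‖ := 
            (hΓ n (v j)).trans (mul_le_mul_of_nonneg_right (le_abs_self Γ) (norm_nonneg _))
          calc wgt v j * |G n (v j)| ≤ wgt v j * (|Γ| * ‖v j‖) := 
                mul_le_mul_of_nonneg_left h2 (wgt_pos v j).le
            _ = |Γ| * (wgt v j * ‖v j‖) := by ring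
            _ ≤ |Γ| * (1 / 2) ^ (j + 1) := mul_le_mul_of_nonneg_left (wgt_mul_le v j) (abs_nonneg _))
      simpa using h1
    · intro n β
      have h1 : HasSum (fun j => G n (A j β)) (G n (S β)) := (hSapp β).mapL (G n)
      have h2 : ∀ j, |G n (A j β)| ≤ (wgt v j * |G n (v j)|) * ‖β‖ := by
        intro j
        rw [hAapp, map_smul, map_smul, smul_eq_mul, smul_eq_mul, abs_mul, abs_mul, 
          abs_of_pos (wgt_pos v j)]
        calc |crd j β| * (wgt v j * |G n (v j)|) ≤ ‖β‖ * (wgt v j * |G n (v j)|) := 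
              mul_le_mul_of_nonneg_right (abs_crd_le j β) 
                (mul_nonneg (wgt_pos v j).le (abs_nonneg _))
          _ = _ := mul_comm _ _
      have h3 : Summable (fun j => wgt v j * |G n (v j)|) := by
        apply Summable.of_nonneg_of_le (fun j => mul_nonneg (wgt_pos v j).le (abs_nonneg _)) 
          (fun j => ?_) (summable_half.mul_left |Γ|)
        have h4 : |G n (v j)| ≤ |Γ| * ‖v j‖ := 
          (hΓ n (v j)).trans (mul_le_mul_of_nonneg_right (le_abs_self Γ) (norm_nonneg _))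
        calc wgt v j * |G n (v j)| ≤ wgt v j * (|Γ| * ‖v j‖) := 
              mul_le_mul_of_nonneg_left h4 (wgt_pos v j).le
          _ = |Γ| * (wgt v j * ‖v j‖) := by ring
          _ ≤ |Γ| * (1 / 2) ^ (j + 1) := mul_le_mul_of_nonneg_left (wgt_mul_le v j) (abs_nonneg _)
      have h5 : Summable (fun j => |G n (A j β)|) := 
        Summable.of_nonneg_of_le (fun _ => abs_nonneg _) h2 (h3.mul_right _)
      rw [← h1.tsum_eq, ← tsum_mul_right]
      refine (norm_tsum_le_tsum_norm (f := fun j => G n (A j β)) h5).trans ?_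
      exact h5.tsum_le_tsum h2 (h3.mul_right _)

omit [CompleteSpace X] in
/-- existence of `R` -/
theorem exists_R : ∃ R : X →L[ℝ] l2, (∀ x, ‖R x‖ ≤ ‖x‖) ∧ ∀ x, R x = 0 → x = 0 := by
  set v : ℕ → X := TopologicalSpace.denseSeq X with hv
  have hf : ∀ j, ∃ f : X →L[ℝ] ℝ, ‖f‖ ≤ 1 ∧ f (v j) = ‖v j‖ := by
    intro j
    obtain ⟨f, hf1, hf2⟩ := exists_dual_vector'' ℝ (v j)
    exact ⟨f, hf1, by simpa using hf2⟩
  choose f hf1 hf2 using hf
  set A : ℕ → (X →L[ℝ] l2) := fun j => (f j).smulRight ((1 / 2 : ℝ) ^ (j + 1) • ev j) with hA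
  have hAapp : ∀ j x, A j x = f j x • ((1 / 2 : ℝ) ^ (j + 1) • ev j) := fun j x => rfl
  have hfx : ∀ j x, |f j x| ≤ ‖x‖ := by
    intro j x
    have := (f j).le_opNorm x
    rw [Real.norm_eq_abs] at this
    have h2 : ‖f j‖ * ‖x‖ ≤ 1 * ‖x‖ := mul_le_mul_of_nonneg_right (hf1 j) (norm_nonneg _)
    linarith
  have hAn : ∀ j, ‖A j‖ ≤ (1 / 2) ^ (j + 1) := by
    intro j
    apply ContinuousLinearMap.opNorm_le_bound _ (by positivity)
    intro x
    rw [hAapp, norm_smul, norm_smul, norm_ev, mul_one, Real.norm_eq_abs, Real.norm_eq_abs, 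
      abs_of_pos (by positivity : (0 : ℝ) < (1 / 2) ^ (j + 1)), mul_comm]
    exact mul_le_mul_of_nonneg_left (hfx j x) (by positivity)
  have hsum : Summable A := Summable.of_norm_bounded summable_half hAn
  set R : X →L[ℝ] l2 := ∑' j, A j with hR
  have hRapp : ∀ x, HasSum (fun j => A j x) (R x) := by
    intro x
    exact hsum.hasSum.mapL (ContinuousLinearMap.apply ℝ l2 x)
  have hRn : ‖R‖ ≤ 1 := by
    have h1 : Summable (fun j => ‖A j‖) := Summable.of_nonneg_of_le (fun _ => norm_nonneg _) hAn summable_half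
    refine (norm_tsum_le_tsum_norm h1).trans ?_
    rw [← tsum_half]
    exact h1.tsum_le_tsum hAn summable_half
  refine ⟨R, fun x => ?_, ?_⟩
  · have := R.le_opNorm x
    have h2 : ‖R‖ * ‖x‖ ≤ 1 * ‖x‖ := mul_le_mul_of_nonneg_right hRn (norm_nonneg _)
    linarith
  · intro x hx
    have hcoord : ∀ j, f j x = 0 := by
      intro j
      have h1 : HasSum (fun i => crd j (A i x)) (crd j (R x)) := (hRapp x).mapL (crd j)
      have h2 : ∀ i, i ≠ j → crd j (A i x) = 0 := by
        intro i hi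
        rw [hAapp, map_smul, map_smul, crd_ev, if_neg (fun h => hi h.symm)]
        simp
      have h3 := h1.unique (hasSum_single j h2)
      rw [hx, map_zero, hAapp, map_smul, map_smul, crd_ev, if_pos rfl, smul_eq_mul, smul_eq_mul, 
        mul_one] at h3
      have h4 : (1 / 2 : ℝ) ^ (j + 1) ≠ 0 := by positivity
      rcases mul_eq_zero.mp h3.symm with h5 | h5
      · exact h5
      · exact absurd h5 h4
    by_contra hne
    have hn : 0 < ‖x‖ := norm_pos_iff.mpr hne
    have hd : DenseRange v := TopologicalSpace.denseRange_denseSeq X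
    obtain ⟨j, hj⟩ := hd.exists_dist_lt x (half_pos hn)
    rw [dist_eq_norm] at hj
    have h1 : ‖v j‖ ≤ ‖x - v j‖ := by
      rw [← hf2 j]
      have h2 := hfx j (x - v j)
      rw [map_sub, hcoord j, zero_sub, abs_neg] at h2
      exact (le_abs_self _).trans h2
    have h3 : ‖x‖ ≤ ‖x - v j‖ + ‖v j‖ := by
      have := norm_add_le (x - v j) (v j)
      simpa using this
    linarith

omit [CompleteSpace X] in
/-- norming functionals for a continuous seminorm -/
theorem exists_norming_seq (r : Seminorm ℝ X) {C : ℝ} (hr : ∀ x, r x ≤ C * ‖x‖) : 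
    ∃ y : ℕ → (X →L[ℝ] ℝ), (∀ l z, |y l z| ≤ r z) ∧ 
      ∀ z (ε : ℝ) (m : ℕ), 0 < ε → ∃ l, m ≤ l ∧ r z - ε < y l z := by
  set v : ℕ → X := TopologicalSpace.denseSeq X with hv
  have hex : ∀ x : X, ∃ φ : X →L[ℝ] ℝ, (∀ z, |φ z| ≤ r z) ∧ φ x = r x := by
    intro x
    by_cases hx : x = 0
    · subst hx
      exact ⟨0, fun z => by simp, by simp⟩
    obtain ⟨g, hg1, hg2⟩ := exists_extension_of_le_sublinear 
      (LinearPMap.mkSpanSingleton x (r x) hx : X →ₗ.[ℝ] ℝ) r 
      (by
        intro c hc z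
        rw [map_smul_eq_mul, Real.norm_eq_abs, abs_of_pos hc])
      (fun a b => map_add_le_add r a b)
      (by
        rintro ⟨z, hz⟩
        obtain ⟨c, rfl⟩ := Submodule.mem_span_singleton.mp hz
        have h1 : (LinearPMap.mkSpanSingleton x (r x) hx : X →ₗ.[ℝ] ℝ) ⟨c • x, hz⟩ = c • r x := 
          LinearPMap.mkSpanSingleton'_apply _ _ _ _ _
        rw [h1]
        show c • r x ≤ r (c • x)
        rw [map_smul_eq_mul, smul_eq_mul, Real.norm_eq_abs]
        exact mul_le_mul_of_nonneg_right (le_abs_self c) (apply_nonneg r x))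
    have habs : ∀ z, |g z| ≤ r z := by
      intro z
      apply abs_le.mpr
      refine ⟨?_, hg2 z⟩
      have := hg2 (-z)
      rw [map_neg, map_neg_eq_map] at this
      linarith
    refine ⟨g.mkContinuous C (fun z => (habs z).trans (hr z)), habs, ?_⟩
    have h1 := hg1 ⟨x, Submodule.mem_span_singleton_self x⟩
    rw [LinearPMap.mkSpanSingleton_apply] at h1
    exact h1
  choose φ hφ1 hφ2 using hex
  refine ⟨fun l => φ (v (Nat.unpair l).1), fun l z => hφ1 _ z, ?_⟩
  intro z ε m hε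
  have hd : DenseRange v := TopologicalSpace.denseRange_denseSeq X
  obtain ⟨δ, hδ, hδ2⟩ : ∃ δ : ℝ, 0 < δ ∧ 2 * (|C| * δ) < ε := by
    refine ⟨ε / (4 * (|C| + 1)), by positivity, ?_⟩
    have : 2 * (|C| * (ε / (4 * (|C| + 1)))) = ε * (|C| / (2 * (|C| + 1))) := by
      field_simp
      ring
    rw [this]
    have h2 : |C| / (2 * (|C| + 1)) < 1 := by
      rw [div_lt_one (by positivity)]
      linarith [abs_nonneg C]
    nlinarith
  obtain ⟨j, hj⟩ := hd.exists_dist_lt z hδ
  rw [dist_eq_norm] at hj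
  refine ⟨Nat.pair j m, Nat.right_le_pair j m, ?_⟩
  simp only [Nat.unpair_pair]
  have h1 := hφ1 (v j) (z - v j)
  rw [map_sub, hφ2] at h1
  have h2 : r (z - v j) ≤ |C| * δ := by
    refine (hr _).trans ?_
    calc C * ‖z - v j‖ ≤ |C| * ‖z - v j‖ := mul_le_mul_of_nonneg_right (le_abs_self C) (norm_nonneg _)
      _ ≤ |C| * δ := mul_le_mul_of_nonneg_left hj.le (abs_nonneg _)
  have h3 : r z ≤ r (z - v j) + r (v j) := by
    have := map_add_le_add r (z - v j) (v j)
    simpa using this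
  have h4 := (abs_le.mp h1).1
  linarith

end Pool.Agent.Helper58.Gat
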