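import Pool.Agent.Helper58.Gat.Meas
import Pool.Agent.Helper58.Gat.Exist

/-!
# The family of configurations and the null set of bad points
-/

open Filter Topology MeasureTheory Finset

namespace Pool.Agent.Helper58.Gat

variable {X : Type*} [NormedAddCommGroup X] [NormedSpace ℝ X]

/-- functionals with a power estimate (data) -/
structure Fun (X : Type*) [NormedAddCommGroup X] [NormedSpace ℝ X] where
  G : ℕ → (X →L[ℝ] ℝ)
  v : ℕ → X
  Γ : ℝ
  q : ℕ
  C : ℝ
  hΓ : 0 ≤ Γ
  hG : ∀ n x, |G n x| ≤ Γ * ‖x‖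
  hv : ∀ n, ‖v n‖ ≤ 1
  hGv : ∀ n, 1 / 2 ≤ G n (v n)
  hC : ∀ x N, ∑ n ∈ range N, |G n x| ^ (q + 1) ≤ (C * ‖x‖) ^ (q + 1)

lemma Fun.tendsto (F : Fun X) (x : X) : Tendsto (fun n => F.G n x) atTop (𝓝 0) := by
  have h1 : Summable (fun n => |F.G n x| ^ (F.q + 1)) := 
    summable_of_sum_range_le (fun n => by positivity) (F.hC x)
  have h2 := h1.tendsto_atTop_zero
  apply (tendsto_zero_iff_abs_tendsto_zero _).mpr
  have h3 : Tendsto (fun n => (|F.G n x| ^ (F.q + 1)) ^ (((F.q + 1 : ℕ) : ℝ)⁻¹)) atTop 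
      (𝓝 ((0 : ℝ) ^ (((F.q + 1 : ℕ) : ℝ)⁻¹))) := by
    apply h2.rpow_const
    right
    positivity
  rw [Real.zero_rpow (by positivity)] at h3
  refine h3.congr (fun n => ?_)
  exact Real.pow_rpow_inv_natCast (abs_nonneg _) (by omega)

/-- the family of configurations exists -/
theorem exists_family [CompleteSpace X] [TopologicalSpace.SeparableSpace X] (F : Fun X) : 
    ∃ (S : l2 →L[ℝ] X) (R : X →L[ℝ] l2) (D : ℕ → Cfg S R) (ν : ℕ → ℕ → ℕ), DenseRange S ∧ 
      (∀ x, R x = 0 → x = 0) ∧ (∀ k, StrictMono (ν k)) ∧ (∀ k l, (D k).gf l = F.G (ν k l)) ∧ 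
      (∀ k, (D k).c ≤ (1 / 2) ^ k) ∧ (∀ k l, (D k).τ l = (1 / 2) ^ (k + l)) := by
  obtain ⟨S, hS, hSd, hSc⟩ := exists_S (X := X)
  obtain ⟨R, hR, hRi⟩ := exists_R (X := X)
  obtain ⟨τ', hτ', hGS⟩ := hSc F.G F.Γ F.hG F.tendsto
  obtain ⟨y, hy1, hy2⟩ := exists_norming_seq (rr S R) (rr_le hR)
  have hν : ∀ k : ℕ, ∃ ν : ℕ → ℕ, StrictMono ν ∧ ∀ l, τ' (ν l) ≤ (1 / 2) ^ (k + l) := by
    intro k
    apply Filter.extraction_forall_of_eventually (P := fun l n => τ' n ≤ (1 / 2) ^ (k + l))
    intro l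
    have h1 : (0 : ℝ) < (1 / 2) ^ (k + l) := by positivity
    exact (hτ'.eventually (gt_mem_nhds h1)).mono (fun n hn => hn.le)
  choose ν hν1 hν2 using hν
  refine ⟨S, R, fun k => 
    { hS := hS
      hR := hR
      yf := y
      hyf := hy1
      hyf2 := hy2
      gf := fun l => F.G (ν k l)
      uf := fun l => F.v (ν k l)
      huf := fun l => F.hv _
      hguf := fun l => F.hGv _
      c := (1 / 2) ^ (k + 1) / (F.Γ + 1)
      hc0 := by have := F.hΓ; positivity
      hc1 := by
        have := F.hΓ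
        rw [div_le_one (by linarith)]
        have h1 : (1 / 2 : ℝ) ^ (k + 1) ≤ 1 := pow_le_one₀ (by norm_num) (by norm_num)
        linarith
      hc := by
        intro l z
        have h0 := F.hΓ
        have h1 := F.hG (ν k l) z
        have h2 := le_rr hS R z
        have h3 : (1 / 2 : ℝ) ^ (k + 1) ≤ 1 / 2 := by
          calc (1 / 2 : ℝ) ^ (k + 1) ≤ (1 / 2) ^ 1 := 
                pow_le_pow_of_le_one (by norm_num) (by norm_num) (by omega)
            _ = 1 / 2 := pow_one _
        have h4 : 0 ≤ rr S R z := apply_nonneg _ z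
        calc (1 / 2 : ℝ) ^ (k + 1) / (F.Γ + 1) * |F.G (ν k l) z| 
            ≤ (1 / 2) / (F.Γ + 1) * (F.Γ * (2 * rr S R z)) := by
              apply mul_le_mul _ _ (abs_nonneg _) (by positivity)
              · exact div_le_div_of_nonneg_right h3 (by linarith)
              · exact h1.trans (mul_le_mul_of_nonneg_left h2 h0)
          _ = (F.Γ / (F.Γ + 1)) * rr S R z := by field_simp
          _ ≤ 1 * rr S R z := by
              apply mul_le_mul_of_nonneg_right _ h4
              rw [div_le_one (by linarith)]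
              linarith
          _ = rr S R z := one_mul _
      τ := fun l => (1 / 2) ^ (k + l)
      hτ0 := fun l => by positivity
      hτ1 := fun l => pow_le_one₀ (by norm_num) (by norm_num)
      hgS := by
        intro l β
        exact (hGS (ν k l) β).trans (mul_le_mul_of_nonneg_right (hν2 k l) (norm_nonneg _))
      hgf := fun z => (F.tendsto z).comp (hν1 k).tendsto_atTop
      hτ := by
        have h1 : Tendsto (fun l : ℕ => (1 / 2 : ℝ) ^ k * (1 / 2) ^ l) atTop (𝓝 ((1 / 2 : ℝ) ^ k * 0)) := 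
          (tendsto_pow_atTop_nhds_zero_of_lt_one (by norm_num) (by norm_num)).const_mul _
        rw [mul_zero] at h1
        exact h1.congr (fun l => by rw [pow_add]) }, ν, hSd, hRi, hν1, ?_, ?_, ?_⟩
  · intro k l; rfl
  · intro k
    show (1 / 2 : ℝ) ^ (k + 1) / (F.Γ + 1) ≤ (1 / 2) ^ k
    have h0 := F.hΓ
    rw [div_le_iff₀ (by linarith)]
    have h1 : (1 / 2 : ℝ) ^ (k + 1) ≤ (1 / 2) ^ k := 
      pow_le_pow_of_le_one (by norm_num) (by norm_num) (by omega)
    have h2 : (0 : ℝ) < (1 / 2) ^ k := by positivity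
    nlinarith
  · intro k l; rfl

/-- the sum of powers along an injective subsequence -/
lemma Fun.sub_sum_le (F : Fun X) {ν : ℕ → ℕ} (hν : StrictMono ν) (x : X) (N : ℕ) : 
    ∑ l ∈ range N, |F.G (ν l) x| ^ (F.q + 1) ≤ (F.C * ‖x‖) ^ (F.q + 1) := by
  classical
  have h1 : ∑ l ∈ range N, |F.G (ν l) x| ^ (F.q + 1) = 
      ∑ n ∈ (range N).image ν, |F.G n x| ^ (F.q + 1) := by
    rw [Finset.sum_image]
    exact fun a _ b _ h => hν.injective h
  rw [h1]
  refine le_trans ?_ (F.hC x (ν N))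
  apply Finset.sum_le_sum_of_subset_of_nonneg
  · intro n hn
    rw [Finset.mem_image] at hn
    obtain ⟨l, hl, rfl⟩ := hn
    rw [Finset.mem_range] at hl ⊢
    exact hν hl
  · intro n _ _
    positivity

variable {S : l2 →L[ℝ] X} {R : X →L[ℝ] l2}

/-- **Null set of bad points.** -/
theorem bad_null (F : Fun X) (D : ℕ → Cfg S R) (ν : ℕ → ℕ → ℕ) (hR : ∀ x, R x = 0 → x = 0) 
    (hν : ∀ k, StrictMono (ν k)) (hgf : ∀ k l, (D k).gf l = F.G (ν k l)) 
    (hc : ∀ k, (D k).c ≤ (1 / 2) ^ k) (hτ : ∀ k l, (D k).τ l = (1 / 2) ^ (k + l)) 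
    {s d : ℕ} (hs : s = F.q + 1) (hd : d = 2 * s + 1) (u : Fin d → X) 
    (hu : LinearIndependent ℝ u) (x' : X) : 
    volume {t : Fin d → ℝ | line u x' t ≠ 0 ∧ ∀ k, (D k).Bad (line u x' t)} = 0 := by
  -- reduction to boxes
  have hred : ∀ ρ : ℕ, volume {t : Fin d → ℝ | (∀ i, |t i| ≤ ρ) ∧ line u x' t ≠ 0 ∧ 
      ∀ k, (D k).Bad (line u x' t)} = 0 := by
    intro ρ
    -- constants
    set M₀ : ℝ := ‖x'‖ + ρ * ∑ i, ‖u i‖ with hM₀
    have hM₀0 : 0 ≤ M₀ := by positivity
    set M : ℝ := 4 * M₀ + 1 with hMdef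
    have hM0 : 0 < M := by positivity
    have hbox : ∀ t : Fin d → ℝ, (∀ i, |t i| ≤ (ρ : ℝ)) → ‖line u x' t‖ ≤ M₀ := by
      intro t ht
      unfold line
      refine (norm_add_le _ _).trans ?_
      rw [hM₀, Finset.mul_sum]
      have h1 : ‖∑ i, t i • u i‖ ≤ ∑ i, (ρ : ℝ) * ‖u i‖ := by
        refine (norm_sum_le _ _).trans (Finset.sum_le_sum (fun i _ => ?_))
        rw [norm_smul, Real.norm_eq_abs]
        exact mul_le_mul_of_nonneg_right (ht i) (norm_nonneg _)
      linarith
    have hM : ∀ t : Fin d → ℝ, (∀ i, |t i| ≤ (ρ : ℝ)) → 4 * ‖line u x' t‖ ≤ M := by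
      intro t ht
      have := hbox t ht
      rw [hMdef]; linarith
    -- antilipschitz constant
    obtain ⟨K, hK0, hK⟩ : ∃ K : ℝ, 0 ≤ K ∧ ∀ t t' : Fin d → ℝ, 
        ‖t - t'‖ ≤ K * ‖R (line u x' t - line u x' t')‖ := by
      set Λ : (Fin d → ℝ) →ₗ[ℝ] l2 := R.toLinearMap ∘ₗ (Fintype.linearCombination ℝ u) with hΛ
      have hker : Λ.ker = ⊥ := by
        rw [LinearMap.ker_eq_bot']
        intro t ht
        have h1 : R (Fintype.linearCombination ℝ u t) = 0 := ht
        have h2 := hR _ h1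
        have h3 := Fintype.linearIndependent_iff.mp hu t (by
          rw [← h2, Fintype.linearCombination_apply])
        ext i
        exact h3 i
      obtain ⟨K, _, hK⟩ := Λ.exists_antilipschitzWith hker
      refine ⟨K, K.2, ?_⟩
      intro t t'
      have h1 := hK.le_mul_dist t t'
      rw [dist_eq_norm, dist_eq_norm, ← map_sub] at h1
      have h2 : Λ (t - t') = R (line u x' t - line u x' t') := by
        show R (Fintype.linearCombination ℝ u (t - t')) = _
        congr 1
        rw [Fintype.linearCombination_apply]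
        unfold line
        simp only [Pi.sub_apply, sub_smul, Finset.sum_sub_distrib]
        abel
      rw [h2] at h1
      exact h1
    -- the vectors
    set ρ' : ℝ := ρ + 1 with hρ'
    set z : Fin (d + 1) → X := Fin.cons x' u with hz
    set β : ℕ → ℝ := fun n => ρ' * ∑ i, |F.G n (z i)| with hβ
    have hβ0 : ∀ n, 0 ≤ β n := fun n => by rw [hβ]; positivity
    have hGline : ∀ t : Fin d → ℝ, (∀ i, |t i| ≤ (ρ : ℝ)) → ∀ n, |F.G n (line u x' t)| ≤ β n := by
      intro t ht n
      rw [hβ]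
      simp only
      rw [Fin.sum_univ_succ, hz]
      simp only [Fin.cons_zero, Fin.cons_succ]
      unfold line
      rw [map_add, map_sum]
      refine (abs_add_le _ _).trans ?_
      have h1 : |∑ i, F.G n (t i • u i)| ≤ ρ * ∑ i, |F.G n (u i)| := by
        refine (Finset.abs_sum_le_sum_abs _ _).trans ?_
        rw [Finset.mul_sum]
        apply Finset.sum_le_sum
        intro i _
        rw [map_smul, smul_eq_mul, abs_mul]
        exact mul_le_mul_of_nonneg_right (ht i) (abs_nonneg _)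
      have h2 : 0 ≤ |F.G n x'| := abs_nonneg _
      have h3 : 0 ≤ ∑ i, |F.G n (u i)| := Finset.sum_nonneg (fun _ _ => abs_nonneg _)
      have h4 : (0 : ℝ) ≤ ρ := Nat.cast_nonneg _
      rw [hρ']
      nlinarith
    set B₁ : ℝ := ρ' * ∑ i, F.Γ * ‖z i‖ with hB₁
    have hρ'0 : 0 ≤ ρ' := by rw [hρ']; positivity
    have hβle : ∀ n, β n ≤ B₁ := by
      intro n
      rw [hβ, hB₁]
      apply mul_le_mul_of_nonneg_left _ hρ'0
      exact Finset.sum_le_sum (fun i _ => F.hG n (z i))
    have hB₁0 : 0 ≤ B₁ := (hβ0 0).trans (hβle 0)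
    set B₃ : ℝ := ρ' ^ s * (((d + 1 : ℕ) : ℝ) ^ F.q * ∑ i, (F.C * ‖z i‖) ^ s) with hB₃
    have hβsum : ∀ k N, ∑ l ∈ range N, β (ν k l) ^ s ≤ B₃ := by
      intro k N
      have h1 : ∀ n, β n ^ s ≤ ρ' ^ s * (((d + 1 : ℕ) : ℝ) ^ F.q * ∑ i, |F.G n (z i)| ^ s) := by
        intro n
        rw [hβ]
        simp only
        rw [mul_pow]
        apply mul_le_mul_of_nonneg_left _ (by positivity)
        have h2 := pow_sum_div_card_le_sum_pow (s := (univ : Finset (Fin (d + 1)))) 
          (f := fun i => |F.G n (z i)|) (fun i _ => abs_nonneg _) F.q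
        rw [Finset.card_univ, Fintype.card_fin, div_le_iff₀ (by positivity)] at h2
        rw [hs]
        linarith
      calc ∑ l ∈ range N, β (ν k l) ^ s 
          ≤ ∑ l ∈ range N, ρ' ^ s * (((d + 1 : ℕ) : ℝ) ^ F.q * ∑ i, |F.G (ν k l) (z i)| ^ s) := 
            Finset.sum_le_sum (fun l _ => h1 _)
        _ = ρ' ^ s * (((d + 1 : ℕ) : ℝ) ^ F.q * ∑ i, ∑ l ∈ range N, |F.G (ν k l) (z i)| ^ s) := by
            rw [← Finset.mul_sum, ← Finset.mul_sum, Finset.sum_comm]
        _ ≤ B₃ := by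
            rw [hB₃]
            apply mul_le_mul_of_nonneg_left _ (by positivity)
            apply mul_le_mul_of_nonneg_left _ (by positivity)
            rw [hs]
            exact Finset.sum_le_sum (fun i _ => F.sub_sum_le (hν k) (z i) N)
    have hB₃0 : 0 ≤ B₃ := by
      have := hβsum 0 0
      simpa using this
    -- the weights
    set W : ℕ → ℕ → ℝ := fun k l => (D k).c * β (ν k l) + (M + 1) * (D k).τ l with hW
    have hWpos : ∀ k l, 0 < W k l := by
      intro k l
      rw [hW]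
      have h1 := (D k).hτ0 l
      have h2 := mul_nonneg (D k).hc0.le (hβ0 (ν k l))
      have h3 : 0 < (M + 1) * (D k).τ l := by positivity
      simp only
      linarith
    have hWt : ∀ k, ∀ t : Fin d → ℝ, (∀ i, |t i| ≤ (ρ : ℝ)) → ∀ l, 
        (D k).wt l ((D k).prox (line u x' t)) ≤ W k l := by
      intro k t ht l
      unfold Cfg.wt Cfg.prox
      rw [hW]
      simp only
      have h1 := (D k).hgS l (argm (D k).p S (line u x' t))
      have h2 := (D k).argm_le (line u x' t)
      have h3 := hM t ht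
      have h4 : |(D k).gf l (line u x' t)| ≤ β (ν k l) := by
        rw [hgf]; exact hGline t ht _
      have h5 : |(D k).gf l (line u x' t - S (argm (D k).p S (line u x' t)))| ≤ 
          β (ν k l) + (D k).τ l * M := by
        rw [map_sub]
        refine (abs_sub _ _).trans ?_
        have h6 : (D k).τ l * ‖argm (D k).p S (line u x' t)‖ ≤ (D k).τ l * M := 
          mul_le_mul_of_nonneg_left (by linarith) ((D k).hτ0 l).le
        linarith
      have h6 := mul_le_mul_of_nonneg_left h5 (D k).hc0.le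
      have h7 : (D k).c * ((D k).τ l * M) ≤ 1 * ((D k).τ l * M) := 
        mul_le_mul_of_nonneg_right (D k).hc1 (mul_nonneg ((D k).hτ0 l).le hM0.le)
      rw [mul_add] at h6
      linarith
    -- the bound for each `k`
    set κ : ℝ := K * (14 * M + 11) with hκ
    have hκ0 : 0 ≤ κ := by positivity
    set M₂ : ℝ := B₁ + M + 2 with hM₂
    set C₁ : ℝ := 2 * κ ^ d * (M + M₂) * 2 ^ s with hC₁
    have hC₁0 : 0 ≤ C₁ := by positivity
    have hterm : ∀ k l, 2 * (M / Real.sqrt (W k l) + 1) * (K * ((14 * M + 11) * Real.sqrt (W k l))) ^ d ≤ 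
        C₁ * ((1 / 2) ^ k * β (ν k l) ^ s + (M + 1) ^ s * ((1 / 2) ^ k * (1 / 2) ^ l)) := by
      intro k l
      set r := Real.sqrt (W k l) with hr
      have hr0 : 0 < r := Real.sqrt_pos.mpr (hWpos k l)
      have hrr : r ^ 2 = W k l := Real.sq_sqrt (hWpos k l).le
      have hrM : r ≤ M₂ := by
        have h1 : W k l ≤ B₁ + (M + 1) := by
          rw [hW]
          simp only
          have h2 : (D k).c * β (ν k l) ≤ 1 * B₁ := 
            mul_le_mul (D k).hc1 (hβle _) (hβ0 _) (by norm_num)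
          have h3 : (M + 1) * (D k).τ l ≤ (M + 1) * 1 := 
            mul_le_mul_of_nonneg_left ((D k).hτ1 l) (by linarith)
          linarith
        rw [hM₂]
        have h2 : r ≤ W k l + 1 := by rw [← hrr]; nlinarith [sq_nonneg (r - 1)]
        linarith
      have e1 : 2 * (M / r + 1) * (K * ((14 * M + 11) * r)) ^ d = 2 * κ ^ d * (M + r) * (r ^ 2) ^ s := by
        have h1 : K * ((14 * M + 11) * r) = κ * r := by rw [hκ]; ring
        rw [h1, mul_pow, hd, pow_succ r (2 * s), pow_mul]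
        field_simp
      rw [e1, hrr]
      have h2 : W k l ^ s ≤ 2 ^ s * ((1 / 2) ^ k * β (ν k l) ^ s + (M + 1) ^ s * ((1 / 2) ^ k * (1 / 2) ^ l)) := by
        set a := (D k).c * β (ν k l) with ha
        set b := (M + 1) * (D k).τ l with hb
        have ha0 : 0 ≤ a := mul_nonneg (D k).hc0.le (hβ0 _)
        have hb0 : 0 ≤ b := mul_nonneg (by linarith) ((D k).hτ0 l).le
        have h3 : (a + b) ^ s ≤ 2 ^ s * (a ^ s + b ^ s) := by
          rcases le_total a b with h | h
          · calc (a + b) ^ s ≤ (2 * b) ^ s := pow_le_pow_left₀ (by positivity) (by linarith) s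
              _ = 2 ^ s * b ^ s := mul_pow _ _ _
              _ ≤ 2 ^ s * (a ^ s + b ^ s) := by
                  apply mul_le_mul_of_nonneg_left _ (by positivity)
                  linarith [pow_nonneg ha0 s]
          · calc (a + b) ^ s ≤ (2 * a) ^ s := pow_le_pow_left₀ (by positivity) (by linarith) s
              _ = 2 ^ s * a ^ s := mul_pow _ _ _
              _ ≤ 2 ^ s * (a ^ s + b ^ s) := by
                  apply mul_le_mul_of_nonneg_left _ (by positivity)
                  linarith [pow_nonneg hb0 s]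
        refine h3.trans ?_
        apply mul_le_mul_of_nonneg_left _ (by positivity)
        apply add_le_add
        · rw [ha, mul_pow]
          apply mul_le_mul_of_nonneg_right _ (pow_nonneg (hβ0 _) _)
          calc (D k).c ^ s ≤ (D k).c ^ 1 := 
                pow_le_pow_of_le_one (D k).hc0.le (D k).hc1 (by omega)
            _ = (D k).c := pow_one _
            _ ≤ (1 / 2) ^ k := hc k
        · rw [hb, mul_pow]
          apply mul_le_mul_of_nonneg_left _ (by positivity)
          calc (D k).τ l ^ s ≤ (D k).τ l ^ 1 := 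
                pow_le_pow_of_le_one ((D k).hτ0 l).le ((D k).hτ1 l) (by omega)
            _ = (1 / 2) ^ k * (1 / 2) ^ l := by rw [pow_one, hτ, pow_add]
      calc 2 * κ ^ d * (M + r) * W k l ^ s ≤ 2 * κ ^ d * (M + M₂) * (2 ^ s * ((1 / 2) ^ k * β (ν k l) ^ s + 
            (M + 1) ^ s * ((1 / 2) ^ k * (1 / 2) ^ l))) := by
            apply mul_le_mul _ h2 (pow_nonneg (hWpos k l).le _) (by positivity)
            apply mul_le_mul_of_nonneg_left (by linarith) (by positivity)
        _ = _ := by rw [hC₁]; ring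
    have hbound : ∀ k : ℕ, volume {t : Fin d → ℝ | (∀ i, |t i| ≤ (ρ : ℝ)) ∧ line u x' t ≠ 0 ∧ 
        ∀ k, (D k).Bad (line u x' t)} ≤ ENNReal.ofReal (C₁ * (B₃ + (M + 1) ^ s * 2) * (1 / 2) ^ k) := by
      intro k
      have h1 := (D k).volume_bad_le u x' hM hM0 hK0 hK (W k) (hWpos k) (hWt k)
      have h2 : {t : Fin d → ℝ | (∀ i, |t i| ≤ (ρ : ℝ)) ∧ line u x' t ≠ 0 ∧ 
          ∀ k, (D k).Bad (line u x' t)} ⊆ {t : Fin d → ℝ | (∀ i, |t i| ≤ (ρ : ℝ)) ∧ 
          line u x' t ≠ 0 ∧ (D k).Bad (line u x' t)} := 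
        fun t ht => ⟨ht.1, ht.2.1, ht.2.2 k⟩
      refine (measure_mono h2).trans (h1.trans ?_)
      set f : ℕ → ℝ := fun l => C₁ * ((1 / 2) ^ k * β (ν k l) ^ s + (M + 1) ^ s * ((1 / 2) ^ k * (1 / 2) ^ l)) with hf
      have hf0 : ∀ l, 0 ≤ f l := by
        intro l
        have := hβ0 (ν k l)
        rw [hf]
        positivity
      have hfN : ∀ N, ∑ l ∈ range N, f l ≤ C₁ * (B₃ + (M + 1) ^ s * 2) * (1 / 2) ^ k := by
        intro N
        have h3 : ∑ l ∈ range N, f l = C₁ * ((1 / 2) ^ k * ∑ l ∈ range N, β (ν k l) ^ s + 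
            (M + 1) ^ s * ((1 / 2) ^ k * ∑ l ∈ range N, (1 / 2) ^ l)) := by
          rw [hf]
          simp only
          rw [← Finset.mul_sum, Finset.sum_add_distrib, ← Finset.mul_sum, ← Finset.mul_sum, 
            ← Finset.mul_sum]
        have h4 : ∑ l ∈ range N, (1 / 2 : ℝ) ^ l ≤ 2 := by
          have h5 : ∑ l ∈ range N, (1 / 2 : ℝ) ^ l ≤ ∑' l : ℕ, (1 / 2 : ℝ) ^ l := 
            summable_geometric_two.sum_le_tsum _ (fun _ _ => by positivity)
          rwa [tsum_geometric_two] at h5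
        rw [h3]
        calc C₁ * ((1 / 2) ^ k * ∑ l ∈ range N, β (ν k l) ^ s + 
              (M + 1) ^ s * ((1 / 2) ^ k * ∑ l ∈ range N, (1 / 2) ^ l)) 
            ≤ C₁ * ((1 / 2) ^ k * B₃ + (M + 1) ^ s * ((1 / 2) ^ k * 2)) := by
              apply mul_le_mul_of_nonneg_left _ hC₁0
              apply add_le_add
              · exact mul_le_mul_of_nonneg_left (hβsum k N) (by positivity)
              · apply mul_le_mul_of_nonneg_left _ (by positivity)
                exact mul_le_mul_of_nonneg_left h4 (by positivity)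
          _ = _ := by ring
      have hfs : Summable f := summable_of_sum_range_le hf0 hfN
      calc ∑' l, ENNReal.ofReal (2 * (M / Real.sqrt (W k l) + 1) * 
            (K * ((14 * M + 11) * Real.sqrt (W k l))) ^ d) 
          ≤ ∑' l, ENNReal.ofReal (f l) := 
            ENNReal.tsum_le_tsum (fun l => ENNReal.ofReal_le_ofReal (hterm k l))
        _ = ENNReal.ofReal (∑' l, f l) := (ENNReal.ofReal_tsum_of_nonneg hf0 hfs).symm
        _ ≤ _ := ENNReal.ofReal_le_ofReal (Real.tsum_le_of_sum_range_le hf0 hfN)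
    -- conclusion
    have hlim : Tendsto (fun k : ℕ => ENNReal.ofReal (C₁ * (B₃ + (M + 1) ^ s * 2) * (1 / 2) ^ k)) atTop (𝓝 0) := by
      have h1 : Tendsto (fun k : ℕ => C₁ * (B₃ + (M + 1) ^ s * 2) * (1 / 2 : ℝ) ^ k) atTop 
          (𝓝 (C₁ * (B₃ + (M + 1) ^ s * 2) * 0)) := 
        (tendsto_pow_atTop_nhds_zero_of_lt_one (by norm_num) (by norm_num)).const_mul _
      rw [mul_zero] at h1
      have h2 := ENNReal.tendsto_ofReal h1
      rwa [ENNReal.ofReal_zero] at h2
    exact le_antisymm (ge_of_tendsto' hlim hbound) bot_le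
  have hunion : {t : Fin d → ℝ | line u x' t ≠ 0 ∧ ∀ k, (D k).Bad (line u x' t)} ⊆ 
      ⋃ ρ : ℕ, {t : Fin d → ℝ | (∀ i, |t i| ≤ (ρ : ℝ)) ∧ line u x' t ≠ 0 ∧ 
        ∀ k, (D k).Bad (line u x' t)} := by
    intro t ht
    obtain ⟨ρ, hρ⟩ := exists_nat_ge ‖t‖
    rw [Set.mem_iUnion]
    refine ⟨ρ, fun i => ?_, ht.1, ht.2⟩
    have := norm_le_pi_norm t i
    rw [Real.norm_eq_abs] at this
    linarith
  exact measure_mono_null hunion (measure_iUnion_null hred)

end Pool.Agent.Helper58.Gat
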