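import Pool.Agent.Helper58.Gat.Renorm
import Pool.Agent.Helper58.Gat.Aron

/-!
# The final norm
-/

open Filter Topology MeasureTheory

open scoped InnerProductSpace

namespace Pool.Agent.Helper58.Gat

variable {X : Type*} [NormedAddCommGroup X] [NormedSpace ℝ X] {S : l2 →L[ℝ] X} {R : X →L[ℝ] l2}

/-- the square of the final norm -/
noncomputable def FF (D : ℕ → Cfg S R) (x : X) : ℝ := ∑' k, (1 / 2 : ℝ) ^ k * (D k).N x ^ 2

/-- the final norm -/
noncomputable def NN (D : ℕ → Cfg S R) (x : X) : ℝ := Real.sqrt (FF D x)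

lemma summable_FF (D : ℕ → Cfg S R) (x : X) : Summable (fun k => (1 / 2 : ℝ) ^ k * (D k).N x ^ 2) := by
  apply Summable.of_nonneg_of_le (fun k => by positivity) (fun k => ?_) 
    (summable_geometric_two.mul_right (16 * ‖x‖ ^ 2))
  apply mul_le_mul_of_nonneg_left _ (by positivity)
  have h1 := (D k).N_le x
  have h2 : 0 ≤ (D k).N x := apply_nonneg _ x
  nlinarith

lemma FF_nonneg (D : ℕ → Cfg S R) (x : X) : 0 ≤ FF D x := tsum_nonneg (fun k => by positivity)

lemma FF_le (D : ℕ → Cfg S R) (x : X) : FF D x ≤ 32 * ‖x‖ ^ 2 := by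
  unfold FF
  have h1 : ∑' k : ℕ, (1 / 2 : ℝ) ^ k * (16 * ‖x‖ ^ 2) = 32 * ‖x‖ ^ 2 := by
    rw [tsum_mul_right, tsum_geometric_two]; ring
  rw [← h1]
  apply (summable_FF D x).tsum_le_tsum _ (summable_geometric_two.mul_right _)
  intro k
  apply mul_le_mul_of_nonneg_left _ (by positivity)
  have h1 := (D k).N_le x
  have h2 : 0 ≤ (D k).N x := apply_nonneg _ x
  nlinarith

lemma le_FF (D : ℕ → Cfg S R) (x : X) : ‖x‖ ^ 2 ≤ 16 * FF D x := by
  have h1 : (1 / 2 : ℝ) ^ 0 * (D 0).N x ^ 2 ≤ FF D x := 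
    (summable_FF D x).le_tsum 0 (fun k _ => by positivity)
  have h2 := (D 0).norm_le_N x
  have h3 : ‖x‖ ^ 2 ≤ (4 * (D 0).N x) ^ 2 := pow_le_pow_left₀ (norm_nonneg _) h2 2
  rw [pow_zero, one_mul] at h1
  nlinarith

lemma NN_nonneg (D : ℕ → Cfg S R) (x : X) : 0 ≤ NN D x := Real.sqrt_nonneg _

lemma NN_sq (D : ℕ → Cfg S R) (x : X) : NN D x ^ 2 = FF D x := Real.sq_sqrt (FF_nonneg D x)

lemma NN_le (D : ℕ → Cfg S R) (x : X) : NN D x ≤ 6 * ‖x‖ := by
  apply (abs_le_of_sq_le_sq' _ (by positivity)).2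
  rw [NN_sq]
  have := FF_le D x
  nlinarith [norm_nonneg x]

lemma le_NN (D : ℕ → Cfg S R) (x : X) : (1 / 4) * ‖x‖ ≤ NN D x := by
  apply (abs_le_of_sq_le_sq' _ (NN_nonneg D x)).2
  rw [NN_sq]
  have := le_FF D x
  nlinarith

lemma NN_pos (D : ℕ → Cfg S R) {x : X} (hx : x ≠ 0) : 0 < NN D x := by
  have h1 := le_NN D x
  have h2 := norm_pos_iff.mpr hx
  linarith

lemma NN_smul (D : ℕ → Cfg S R) (c : ℝ) (x : X) : NN D (c • x) = |c| * NN D x := by
  unfold NN
  have h1 : FF D (c • x) = c ^ 2 * FF D x := by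
    unfold FF
    rw [← tsum_mul_left]
    apply tsum_congr
    intro k
    rw [map_smul_eq_mul, Real.norm_eq_abs, mul_pow, sq_abs]
    ring
  rw [h1, Real.sqrt_mul (sq_nonneg c), Real.sqrt_sq_eq_abs]

lemma NN_add_le (D : ℕ → Cfg S R) (x y : X) : NN D (x + y) ≤ NN D x + NN D y := by
  by_cases hx : x = 0
  · subst hx
    rw [zero_add]
    linarith [NN_nonneg D (0 : X)]
  by_cases hy : y = 0
  · subst hy
    rw [add_zero]
    linarith [NN_nonneg D (0 : X)]
  have hA := NN_pos D hx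
  have hB := NN_pos D hy
  set A := NN D x with hAdef
  set B := NN D y with hBdef
  have h1 : FF D (x + y) ≤ (1 + B / A) * FF D x + (1 + A / B) * FF D y := by
    unfold FF
    rw [← tsum_mul_left, ← tsum_mul_left, ← ((summable_FF D x).mul_left _).tsum_add 
      ((summable_FF D y).mul_left _)]
    apply (summable_FF D (x + y)).tsum_le_tsum _ 
      (((summable_FF D x).mul_left _).add ((summable_FF D y).mul_left _))
    intro k
    have h2 := map_add_le_add (D k).N x y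
    have h3 : 0 ≤ (D k).N (x + y) := apply_nonneg _ _
    set a := (D k).N x with ha
    set b := (D k).N y with hb
    have h4 : (D k).N (x + y) ^ 2 ≤ (1 + B / A) * a ^ 2 + (1 + A / B) * b ^ 2 := by
      have h5 : (D k).N (x + y) ^ 2 ≤ (a + b) ^ 2 := pow_le_pow_left₀ h3 h2 2
      have h6 : (1 + B / A) * a ^ 2 + (1 + A / B) * b ^ 2 - (a + b) ^ 2 = 
          (B * a - A * b) ^ 2 / (A * B) := by
        field_simp
        ring
      have h7 : 0 ≤ (B * a - A * b) ^ 2 / (A * B) := by positivity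
      linarith
    have h5 : (0 : ℝ) ≤ (1 / 2) ^ k := by positivity
    calc (1 / 2 : ℝ) ^ k * (D k).N (x + y) ^ 2 
        ≤ (1 / 2 : ℝ) ^ k * ((1 + B / A) * a ^ 2 + (1 + A / B) * b ^ 2) := 
          mul_le_mul_of_nonneg_left h4 h5
      _ = _ := by ring
  have h2 : (1 + B / A) * FF D x + (1 + A / B) * FF D y = (A + B) ^ 2 := by
    rw [← NN_sq D x, ← NN_sq D y, ← hAdef, ← hBdef]
    field_simp
    ring
  rw [h2, ← NN_sq] at h1
  exact (abs_le_of_sq_le_sq' h1 (by positivity)).2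

/-- the final norm as a seminorm -/
noncomputable def NNs (D : ℕ → Cfg S R) : Seminorm ℝ X := 
  Seminorm.of (NN D) (NN_add_le D) (fun c x => by rw [Real.norm_eq_abs]; exact NN_smul D c x)

lemma NN_lip (D : ℕ → Cfg S R) (x y : X) : |NN D x - NN D y| ≤ 6 * ‖x - y‖ := by
  have h1 : |NNs D x - NNs D y| ≤ NNs D (x - y) := abs_sub_map_le_sub (NNs D) x y
  exact h1.trans (NN_le D (x - y))

/-- norming functional of the final norm -/
lemma exists_norming_functional (D : ℕ → Cfg S R) {x : X} (hx : x ≠ 0) : 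
    ∃ φ : X →L[ℝ] ℝ, (∀ z, φ z ≤ NN D z) ∧ φ x = NN D x := by
  obtain ⟨g, hg1, hg2⟩ := exists_extension_of_le_sublinear 
    (LinearPMap.mkSpanSingleton x (NN D x) hx : X →ₗ.[ℝ] ℝ) (NN D) 
    (by
      intro c hc z
      rw [NN_smul, abs_of_pos hc])
    (NN_add_le D)
    (by
      rintro ⟨z, hz⟩
      obtain ⟨c, rfl⟩ := Submodule.mem_span_singleton.mp hz
      have h1 : (LinearPMap.mkSpanSingleton x (NN D x) hx : X →ₗ.[ℝ] ℝ) ⟨c • x, hz⟩ = c • NN D x := 
        LinearPMap.mkSpanSingleton'_apply _ _ _ _ _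
      rw [h1]
      show c • NN D x ≤ NN D (c • x)
      rw [NN_smul, smul_eq_mul]
      exact mul_le_mul_of_nonneg_right (le_abs_self c) (NN_nonneg D x))
  have habs : ∀ z, ‖g z‖ ≤ 6 * ‖z‖ := by
    intro z
    rw [Real.norm_eq_abs]
    apply abs_le.mpr
    constructor
    · have := hg2 (-z)
      have h2 := NN_le D (-z)
      rw [map_neg] at this
      rw [norm_neg] at h2
      linarith
    · exact (hg2 z).trans (NN_le D z)
  refine ⟨g.mkContinuous 6 habs, hg2, ?_⟩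
  have h1 := hg1 ⟨x, Submodule.mem_span_singleton_self x⟩
  rw [LinearPMap.mkSpanSingleton_apply] at h1
  exact h1

/-- smoothness along `S` -/
lemma FF_smooth (D : ℕ → Cfg S R) (x : X) : ∃ b : l2, ∀ β : l2, 
    FF D (x + S β) ≤ FF D x + 2 * ⟪b, β⟫_ℝ + 2 * ‖β‖ ^ 2 := by
  have hsum : Summable (fun k => (1 / 2 : ℝ) ^ k • argm (D k).p S x) := by
    apply Summable.of_norm_bounded (summable_geometric_two.mul_right (4 * ‖x‖))
    intro k
    rw [norm_smul, Real.norm_eq_abs, abs_of_pos (by positivity)]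
    exact mul_le_mul_of_nonneg_left ((D k).argm_le x) (by positivity)
  refine ⟨∑' k, (1 / 2 : ℝ) ^ k • argm (D k).p S x, fun β => ?_⟩
  have h1 : HasSum (fun k => (1 / 2 : ℝ) ^ k * ⟪argm (D k).p S x, β⟫_ℝ) 
      ⟪∑' k, (1 / 2 : ℝ) ^ k • argm (D k).p S x, β⟫_ℝ := by
    have h2 := hsum.hasSum.mapL (innerSL ℝ β)
    rw [innerSL_apply_apply, real_inner_comm] at h2
    refine h2.congr_fun ?_
    intro k
    rw [innerSL_apply_apply, inner_smul_right, real_inner_comm]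
  have h3 : HasSum (fun k : ℕ => (1 / 2 : ℝ) ^ k * ‖β‖ ^ 2) (2 * ‖β‖ ^ 2) := 
    hasSum_geometric_two.mul_right _
  have h4 := ((summable_FF D x).hasSum.add (h1.mul_left 2)).add h3
  refine hasSum_le ?_ (summable_FF D (x + S β)).hasSum h4
  intro k
  have h5 := icv_smooth (D k).p_continuous S x β
  have h6 : (0 : ℝ) ≤ (1 / 2) ^ k := by positivity
  have h7 := mul_le_mul_of_nonneg_left h5 h6
  show (1 / 2 : ℝ) ^ k * icv (D k).p S (x + S β) ^ 2 ≤ 
    (1 / 2 : ℝ) ^ k * icv (D k).p S x ^ 2 + 2 * ((1 / 2 : ℝ) ^ k * ⟪argm (D k).p S x, β⟫_ℝ) + 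
      (1 / 2 : ℝ) ^ k * ‖β‖ ^ 2
  linarith

/-- **Gateaux differentiability.** -/
theorem gateaux (D : ℕ → Cfg S R) (hS : DenseRange S) {x : X} (hx : x ≠ 0) : 
    ∃ f : X →L[ℝ] ℝ, ∀ v : X, HasDerivAt (fun t : ℝ => NN D (x + t • v)) (f v) 0 := by
  obtain ⟨φ, hφ1, hφ2⟩ := exists_norming_functional D hx
  obtain ⟨b, hb⟩ := FF_smooth D x
  set n := NN D x with hn
  have hn0 : 0 < n := NN_pos D hx
  have hlow : ∀ z, n + φ z ≤ NN D (x + z) := by
    intro z
    have := hφ1 (x + z)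
    rw [map_add, hφ2] at this
    exact this
  have hup : ∀ β : l2, NN D (x + S β) ^ 2 ≤ n ^ 2 + 2 * ⟪b, β⟫_ℝ + 2 * ‖β‖ ^ 2 := by
    intro β
    rw [NN_sq, hn, NN_sq]
    exact hb β
  -- identification of the functional on the range of `S`
  have hle : ∀ β : l2, n * φ (S β) ≤ ⟪b, β⟫_ℝ := by
    intro β
    have h1 : ∀ t : ℝ, 0 < t → n * φ (S β) ≤ ⟪b, β⟫_ℝ + t * ‖β‖ ^ 2 := by
      intro t ht
      have h2 := hup (t • β)
      have h3 := hlow (S (t • β))
      rw [map_smul, map_smul, smul_eq_mul] at h3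
      rw [map_smul, inner_smul_right, norm_smul, Real.norm_eq_abs, abs_of_pos ht] at h2
      have h4 : n ^ 2 + 2 * n * (t * φ (S β)) ≤ NN D (x + t • S β) ^ 2 := by
        nlinarith [sq_nonneg (NN D (x + t • S β) - n)]
      have h5 : t * (n * φ (S β)) ≤ t * (⟪b, β⟫_ℝ + t * ‖β‖ ^ 2) := by nlinarith
      exact le_of_mul_le_mul_left h5 ht
    apply le_of_forall_pos_le_add
    intro ε hε
    have h2 := h1 (ε / (‖β‖ ^ 2 + 1)) (by positivity)
    have h3 : ε / (‖β‖ ^ 2 + 1) * ‖β‖ ^ 2 ≤ ε := by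
      rw [div_mul_eq_mul_div, div_le_iff₀ (by positivity)]
      nlinarith
    linarith
  have heq : ∀ β : l2, n * φ (S β) = ⟪b, β⟫_ℝ := by
    intro β
    apply le_antisymm (hle β)
    have := hle (-β)
    rw [map_neg, map_neg, inner_neg_right] at this
    linarith
  have hupS : ∀ β : l2, NN D (x + S β) ≤ n + φ (S β) + ‖β‖ ^ 2 / n := by
    intro β
    have h1 := hup β
    rw [← heq β] at h1
    have h2 : n + φ (S β) + ‖β‖ ^ 2 / n = (2 * n ^ 2 + 2 * (n * φ (S β)) + 2 * ‖β‖ ^ 2) / (2 * n) := by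
      field_simp
    rw [h2, le_div_iff₀ (by positivity)]
    nlinarith [sq_nonneg (NN D (x + S β) - n)]
  refine ⟨φ, fun v => ?_⟩
  rw [hasDerivAt_iff_isLittleO_nhds_zero, Asymptotics.isLittleO_iff]
  intro ε hε
  obtain ⟨_, ⟨β, rfl⟩, hβ⟩ := hS.exists_mem_open (Metric.isOpen_ball (x := v) (ε := ε / 24)) 
    ⟨v, Metric.mem_ball_self (by positivity)⟩ |> fun ⟨a, ha⟩ => (⟨S a, ⟨a, rfl⟩, ha⟩ : 
      ∃ z, (z ∈ Set.range S) ∧ z ∈ Metric.ball v (ε / 24))
  rw [Metric.mem_ball, dist_eq_norm] at hβ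
  have hev : ∀ᶠ t in 𝓝 (0 : ℝ), |t| * (‖β‖ ^ 2 / n) ≤ ε / 2 := by
    have hc : Continuous (fun t : ℝ => |t| * (‖β‖ ^ 2 / n)) := by fun_prop
    have h1 := hc.tendsto 0
    simp only [abs_zero, zero_mul] at h1
    exact (h1.eventually (gt_mem_nhds (half_pos hε))).mono (fun t ht => ht.le)
  filter_upwards [hev] with t ht
  rw [zero_add, zero_smul, add_zero, smul_eq_mul, Real.norm_eq_abs, Real.norm_eq_abs]
  have h1 := hlow (t • v)
  rw [map_smul, smul_eq_mul] at h1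
  have h2 := hupS (t • β)
  rw [map_smul, map_smul, smul_eq_mul, norm_smul, Real.norm_eq_abs, mul_pow, sq_abs] at h2
  have h3 := NN_lip D (x + t • v) (x + t • S β)
  have e1 : x + t • v - (x + t • S β) = t • (v - S β) := by rw [smul_sub]; abel
  rw [e1, norm_smul, Real.norm_eq_abs, norm_sub_rev] at h3
  have h4 : |φ (S β - v)| ≤ 6 * ‖S β - v‖ := by
    apply abs_le.mpr
    constructor
    · have h5 := hφ1 (-(S β - v))
      have h6 := NN_le D (-(S β - v))
      rw [map_neg] at h5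
      rw [norm_neg] at h6
      linarith
    · exact (hφ1 _).trans (NN_le D _)
  rw [map_sub] at h4
  have h5 : |t * (φ (S β) - φ v)| ≤ |t| * (6 * ‖S β - v‖) := by
    rw [abs_mul]
    exact mul_le_mul_of_nonneg_left h4 (abs_nonneg t)
  have h6 : |t| * ‖S β - v‖ ≤ |t| * (ε / 24) := mul_le_mul_of_nonneg_left hβ.le (abs_nonneg t)
  have h7 : t ^ 2 * ‖β‖ ^ 2 / n = |t| * (|t| * (‖β‖ ^ 2 / n)) := by
    rw [← sq_abs t]; ring
  rw [h7] at h2
  have h8 : |t| * (|t| * (‖β‖ ^ 2 / n)) ≤ |t| * (ε / 2) := mul_le_mul_of_nonneg_left ht (abs_nonneg t)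
  rw [abs_le]
  have h9 := abs_le.mp h3
  have h10 := abs_le.mp h5
  have h11 : 0 ≤ |t| * ε := by positivity
  constructor
  · linarith
  · nlinarith [h9.1, h9.2, h10.1, h10.2]

end Pool.Agent.Helper58.Gat
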