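import Mathlib

/-!
# Quadratic inf-convolution of a seminorm with a Hilbert space
-/

open Filter Topology

open scoped InnerProductSpace

namespace Pool.Agent.Helper58.Gat

variable {X : Type*} [NormedAddCommGroup X] [NormedSpace ℝ X]
variable {H : Type*} [NormedAddCommGroup H] [InnerProductSpace ℝ H]

/-- the functional to be minimised -/
noncomputable def fnl (q : Seminorm ℝ X) (S : H →L[ℝ] X) (x : X) (b : H) : ℝ :=
  q (x - S b) ^ 2 + ‖b‖ ^ 2

lemma fnl_nonneg (q : Seminorm ℝ X) (S : H →L[ℝ] X) (x : X) (b : H) : 0 ≤ fnl q S x b := by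
  unfold fnl; positivity

lemma fnl_mid (q : Seminorm ℝ X) (S : H →L[ℝ] X) (x : X) (b b' : H) : 
    fnl q S x ((1 / 2 : ℝ) • (b + b')) ≤ (fnl q S x b + fnl q S x b') / 2 - ‖b - b'‖ ^ 2 / 4 := by
  unfold fnl
  have h1 : x - S ((1 / 2 : ℝ) • (b + b')) = (1 / 2 : ℝ) • ((x - S b) + (x - S b')) := by
    rw [map_smul, map_add]
    module
  have h2 : q ((1 / 2 : ℝ) • ((x - S b) + (x - S b'))) ≤ (q (x - S b) + q (x - S b')) / 2 := by
    rw [map_smul_eq_mul, Real.norm_eq_abs, abs_of_pos (by norm_num)]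
    have := map_add_le_add q (x - S b) (x - S b')
    linarith
  have h3 : ‖(1 / 2 : ℝ) • (b + b')‖ ^ 2 = (‖b‖ ^ 2 + ‖b'‖ ^ 2) / 2 - ‖b - b'‖ ^ 2 / 4 := by
    have := parallelogram_law_with_norm ℝ b b'
    rw [norm_smul, Real.norm_eq_abs, abs_of_pos (by norm_num)]
    nlinarith
  rw [h1, h3]
  have h4 : 0 ≤ q ((1 / 2 : ℝ) • ((x - S b) + (x - S b'))) := apply_nonneg q _
  have h5 : q ((1 / 2 : ℝ) • ((x - S b) + (x - S b'))) ^ 2 ≤ (q (x - S b) ^ 2 + q (x - S b') ^ 2) / 2 := by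
    nlinarith [sq_nonneg (q (x - S b) - q (x - S b'))]
  linarith

lemma exists_min [CompleteSpace H] (q : Seminorm ℝ X) (hq : Continuous q) (S : H →L[ℝ] X) (x : X) : 
    ∃ b₀ : H, ∀ b : H, fnl q S x b₀ ≤ fnl q S x b := by
  set m := ⨅ b : H, fnl q S x b with hm
  have hbdd : BddBelow (Set.range (fun b : H => fnl q S x b)) := 
    ⟨0, by rintro _ ⟨b, rfl⟩; exact fnl_nonneg q S x b⟩
  have hle : ∀ b, m ≤ fnl q S x b := fun b => ciInf_le hbdd b
  have hex : ∀ n : ℕ, ∃ b : H, fnl q S x b < m + 1 / ((n : ℝ) + 1) := by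
    intro n
    exact exists_lt_of_ciInf_lt (lt_add_of_pos_right _ (by positivity))
  choose b hb using hex
  have hdist : ∀ n k N : ℕ, N ≤ n → N ≤ k → dist (b n) (b k) ≤ Real.sqrt (4 * (1 / ((N : ℝ) + 1))) := by
    intro n k N hn hk
    have h1 := (hle _).trans (fnl_mid q S x (b n) (b k))
    have h2 : 1 / ((n : ℝ) + 1) ≤ 1 / ((N : ℝ) + 1) := by
      apply one_div_le_one_div_of_le (by positivity)
      have : (N : ℝ) ≤ n := by exact_mod_cast hn
      linarith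
    have h3 : 1 / ((k : ℝ) + 1) ≤ 1 / ((N : ℝ) + 1) := by
      apply one_div_le_one_div_of_le (by positivity)
      have : (N : ℝ) ≤ k := by exact_mod_cast hk
      linarith
    rw [dist_eq_norm]
    apply Real.le_sqrt_of_sq_le
    linarith [hb n, hb k]
  have hlim : Tendsto (fun N : ℕ => Real.sqrt (4 * (1 / ((N : ℝ) + 1)))) atTop (𝓝 0) := by
    have h1 : Tendsto (fun N : ℕ => 4 * (1 / ((N : ℝ) + 1))) atTop (𝓝 (4 * 0)) := 
      tendsto_one_div_add_atTop_nhds_zero_nat.const_mul 4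
    have h2 := (Real.continuous_sqrt.tendsto (4 * 0)).comp h1
    rw [mul_zero, Real.sqrt_zero] at h2
    exact h2
  have hcauchy : CauchySeq b := cauchySeq_of_le_tendsto_0 _ hdist hlim
  obtain ⟨b₀, hb₀⟩ := cauchySeq_tendsto_of_complete hcauchy
  refine ⟨b₀, fun c => le_trans ?_ (hle c)⟩
  have hcont : Continuous (fun b : H => fnl q S x b) := by
    unfold fnl
    have : Continuous (fun b : H => q (x - S b)) := hq.comp (by fun_prop)
    fun_prop
  have h1 : Tendsto (fun n => fnl q S x (b n)) atTop (𝓝 (fnl q S x b₀)) := (hcont.tendsto b₀).comp hb₀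
  have h2 : Tendsto (fun n : ℕ => m + 1 / ((n : ℝ) + 1)) atTop (𝓝 (m + 0)) := 
    tendsto_const_nhds.add tendsto_one_div_add_atTop_nhds_zero_nat
  rw [add_zero] at h2
  exact le_of_tendsto_of_tendsto' h1 h2 (fun n => (hb n).le)

/-- the minimiser -/
noncomputable def argm (q : Seminorm ℝ X) (S : H →L[ℝ] X) (x : X) : H :=
  Classical.epsilon (fun b₀ : H => ∀ b : H, fnl q S x b₀ ≤ fnl q S x b)

/-- the inf-convolution -/
noncomputable def icv (q : Seminorm ℝ X) (S : H →L[ℝ] X) (x : X) : ℝ := 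
  Real.sqrt (fnl q S x (argm q S x))

variable [CompleteSpace H]

lemma argm_spec {q : Seminorm ℝ X} (hq : Continuous q) (S : H →L[ℝ] X) (x : X) (b : H) : 
    fnl q S x (argm q S x) ≤ fnl q S x b := 
  Classical.epsilon_spec (exists_min q hq S x) b

omit [CompleteSpace H] in
lemma icv_nonneg (q : Seminorm ℝ X) (S : H →L[ℝ] X) (x : X) : 0 ≤ icv q S x := Real.sqrt_nonneg _

omit [CompleteSpace H] in
lemma icv_sq (q : Seminorm ℝ X) (S : H →L[ℝ] X) (x : X) : 
    icv q S x ^ 2 = q (x - S (argm q S x)) ^ 2 + ‖argm q S x‖ ^ 2 := 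
  Real.sq_sqrt (fnl_nonneg _ _ _ _)

lemma icv_sq_le {q : Seminorm ℝ X} (hq : Continuous q) (S : H →L[ℝ] X) (x : X) (b : H) : 
    icv q S x ^ 2 ≤ q (x - S b) ^ 2 + ‖b‖ ^ 2 := by
  rw [icv_sq]
  exact argm_spec hq S x b

lemma icv_le {q : Seminorm ℝ X} (hq : Continuous q) (S : H →L[ℝ] X) (x : X) : icv q S x ≤ q x := by
  have h := icv_sq_le hq S x 0
  rw [map_zero, sub_zero, norm_zero] at h
  have h2 : 0 ≤ q x := apply_nonneg q x
  exact (abs_le_of_sq_le_sq' (by linarith) h2).2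

lemma icv_add_le {q : Seminorm ℝ X} (hq : Continuous q) (S : H →L[ℝ] X) (x y : X) : 
    icv q S (x + y) ≤ icv q S x + icv q S y := by
  have h1 := icv_sq_le hq S (x + y) (argm q S x + argm q S y)
  have e : x + y - S (argm q S x + argm q S y) = (x - S (argm q S x)) + (y - S (argm q S y)) := by
    rw [map_add]; abel
  rw [e] at h1
  have h2 := icv_sq q S x
  have h3 := icv_sq q S y
  have h4 := icv_nonneg q S x
  have h5 := icv_nonneg q S y
  have h6 := map_add_le_add q (x - S (argm q S x)) (y - S (argm q S y))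
  have h7 := norm_add_le (argm q S x) (argm q S y)
  have h8 : 0 ≤ q ((x - S (argm q S x)) + (y - S (argm q S y))) := apply_nonneg q _
  set α := q (x - S (argm q S x))
  set α' := q (y - S (argm q S y))
  set β := ‖argm q S x‖
  set β' := ‖argm q S y‖
  set N := icv q S x
  set N' := icv q S y
  have hα : 0 ≤ α := apply_nonneg q _
  have hα' : 0 ≤ α' := apply_nonneg q _
  have hβ : 0 ≤ β := norm_nonneg _
  have hβ' : 0 ≤ β' := norm_nonneg _
  have h9 : α * α' + β * β' ≤ N * N' := by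
    apply abs_le_of_sq_le_sq' _ (by positivity) |>.2
    have : (N * N') ^ 2 = (α ^ 2 + β ^ 2) * (α' ^ 2 + β' ^ 2) := by rw [mul_pow, h2, h3]
    rw [this]
    nlinarith [sq_nonneg (α * β' - α' * β)]
  have h10 : icv q S (x + y) ^ 2 ≤ (N + N') ^ 2 := by
    have h11 : ‖argm q S x + argm q S y‖ ^ 2 ≤ (β + β') ^ 2 := 
      pow_le_pow_left₀ (norm_nonneg _) h7 2
    have h12 : q ((x - S (argm q S x)) + (y - S (argm q S y))) ^ 2 ≤ (α + α') ^ 2 := 
      pow_le_pow_left₀ h8 h6 2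
    nlinarith
  exact (abs_le_of_sq_le_sq' h10 (by positivity)).2

lemma icv_smul_le {q : Seminorm ℝ X} (hq : Continuous q) (S : H →L[ℝ] X) (c : ℝ) (x : X) : 
    icv q S (c • x) ≤ |c| * icv q S x := by
  have h1 := icv_sq_le hq S (c • x) (c • argm q S x)
  rw [map_smul, ← smul_sub, map_smul_eq_mul, norm_smul, Real.norm_eq_abs] at h1
  have h2 := icv_sq q S x
  have h3 : icv q S (c • x) ^ 2 ≤ (|c| * icv q S x) ^ 2 := by
    rw [mul_pow, h2]
    nlinarith
  exact (abs_le_of_sq_le_sq' h3 (mul_nonneg (abs_nonneg _) (icv_nonneg _ _ _))).2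

lemma icv_smul {q : Seminorm ℝ X} (hq : Continuous q) (S : H →L[ℝ] X) (c : ℝ) (x : X) : 
    icv q S (c • x) = |c| * icv q S x := by
  apply le_antisymm (icv_smul_le hq S c x)
  rcases eq_or_ne c 0 with rfl | hc
  · simp [icv_nonneg]
  · have h := icv_smul_le hq S c⁻¹ (c • x)
    rw [smul_smul, inv_mul_cancel₀ hc, one_smul, abs_inv] at h
    have hc' : 0 < |c| := abs_pos.mpr hc
    rw [← div_eq_inv_mul, le_div_iff₀ hc'] at h
    linarith

/-- the inf-convolution as a seminorm -/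
noncomputable def icvS (q : Seminorm ℝ X) (hq : Continuous q) (S : H →L[ℝ] X) : Seminorm ℝ X := 
  Seminorm.of (icv q S) (icv_add_le hq S) (fun c x => by rw [Real.norm_eq_abs]; exact icv_smul hq S c x)

@[simp] lemma icvS_apply (q : Seminorm ℝ X) (hq : Continuous q) (S : H →L[ℝ] X) (x : X) : 
    icvS q hq S x = icv q S x := rfl

/-- smoothness along `S` -/
lemma icv_smooth {q : Seminorm ℝ X} (hq : Continuous q) (S : H →L[ℝ] X) (x : X) (β : H) : 
    icv q S (x + S β) ^ 2 ≤ icv q S x ^ 2 + 2 * ⟪argm q S x, β⟫_ℝ + ‖β‖ ^ 2 := by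
  have h1 := icv_sq_le hq S (x + S β) (argm q S x + β)
  have e : x + S β - S (argm q S x + β) = x - S (argm q S x) := by rw [map_add]; abel
  rw [e, norm_add_sq_real] at h1
  rw [icv_sq q S x]
  linarith

/-- first order condition -/
lemma first_order {q : Seminorm ℝ X} (hq : Continuous q) (S : H →L[ℝ] X) (x : X) (β : H) (κ t₀ : ℝ) 
    (ht₀ : 0 < t₀) (h : ∀ t : ℝ, 0 < t → t ≤ t₀ → 
      q (x - S (argm q S x) + t • S β) ≤ q (x - S (argm q S x)) + t * κ) : 
    ⟪argm q S x, β⟫_ℝ ≤ q (x - S (argm q S x)) * κ := by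
  set y := x - S (argm q S x) with hy
  set b₀ := argm q S x with hb₀
  have h1 : ∀ t : ℝ, 0 < t → t ≤ t₀ → 2 * ⟪b₀, β⟫_ℝ ≤ 2 * (q y * κ) + t * (κ ^ 2 + ‖β‖ ^ 2) := by
    intro t ht ht2
    have h2 := argm_spec hq S x (b₀ - t • β)
    unfold fnl at h2
    rw [← hb₀, ← hy] at h2
    have e : x - S (b₀ - t • β) = y + t • S β := by
      rw [map_sub, map_smul, hy]; abel
    rw [e, norm_sub_sq_real, inner_smul_right, norm_smul, Real.norm_eq_abs, abs_of_pos ht] at h2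
    have h3 := h t ht ht2
    have h4 : q (y + t • S β) ^ 2 ≤ (q y + t * κ) ^ 2 := pow_le_pow_left₀ (apply_nonneg q _) h3 2
    have h5 : t * (2 * ⟪b₀, β⟫_ℝ) ≤ t * (2 * (q y * κ) + t * (κ ^ 2 + ‖β‖ ^ 2)) := by nlinarith
    exact le_of_mul_le_mul_left h5 ht
  have h2 : 2 * ⟪b₀, β⟫_ℝ ≤ 2 * (q y * κ) := by
    apply le_of_forall_pos_le_add
    intro ε hε
    set K := κ ^ 2 + ‖β‖ ^ 2 + 1 with hK
    have hK0 : 0 < K := by positivity
    have h3 := h1 (min t₀ (ε / K)) (lt_min ht₀ (by positivity)) (min_le_left _ _)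
    have h4 : min t₀ (ε / K) * (κ ^ 2 + ‖β‖ ^ 2) ≤ ε / K * K := by
      apply mul_le_mul (min_le_right _ _) (by rw [hK]; linarith) (by positivity) (by positivity)
    rw [div_mul_cancel₀ _ hK0.ne'] at h4
    linarith
  linarith

/-- bound on the minimiser -/
lemma norm_argm_le {q : Seminorm ℝ X} (hq : Continuous q) (S : H →L[ℝ] X) {K : ℝ} 
    (hK : ∀ β : H, q (S β) ≤ K * ‖β‖) (hK0 : 0 ≤ K) (x : X) : 
    ‖argm q S x‖ ≤ K * q (x - S (argm q S x)) := by
  set b₀ := argm q S x with hb₀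
  have h := first_order hq S x b₀ (K * ‖b₀‖) 1 one_pos (by
    intro t ht _
    refine (map_add_le_add q _ _).trans ?_
    rw [map_smul_eq_mul, Real.norm_eq_abs, abs_of_pos ht]
    have := mul_le_mul_of_nonneg_left (hK b₀) ht.le
    linarith)
  rw [← hb₀, real_inner_self_eq_norm_sq] at h
  rcases (norm_nonneg b₀).eq_or_lt with h0 | h0
  · rw [← h0]
    exact mul_nonneg hK0 (apply_nonneg q _)
  · have : ‖b₀‖ * ‖b₀‖ ≤ ‖b₀‖ * (K * q (x - S b₀)) := by nlinarith
    exact le_of_mul_le_mul_left this h0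

omit [CompleteSpace H] in
/-- lower bound from an almost optimal functional -/
lemma icv_lower (q : Seminorm ℝ X) (S : H →L[ℝ] X) (x : X) (φ : X →L[ℝ] ℝ) 
    (hφ : ∀ z, φ z ≤ q z) {P η : ℝ} (hP : 0 ≤ P) 
    (hη : ∀ β : H, |⟪argm q S x, β⟫_ℝ - P * φ (S β)| ≤ η * ‖β‖) (h : X) : 
    2 * P * φ (x - S (argm q S x) + h) - P ^ 2 + ‖argm q S x‖ ^ 2 - η ^ 2 ≤ icv q S (x + h) ^ 2 := by
  set b₀ := argm q S x with hb₀
  set b := argm q S (x + h) with hb
  set β := b - b₀ with hβ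
  rw [icv_sq, ← hb]
  have e : x + h - S b = (x - S b₀ + h) - S β := by rw [hβ, map_sub]; abel
  have h1 : 2 * P * φ (x + h - S b) - P ^ 2 ≤ q (x + h - S b) ^ 2 := by
    have := hφ (x + h - S b)
    nlinarith [sq_nonneg (q (x + h - S b) - P), mul_le_mul_of_nonneg_left this hP]
  rw [e, map_sub] at h1
  rw [e]
  have h2 : ‖b‖ ^ 2 = ‖b₀‖ ^ 2 + 2 * ⟪b₀, β⟫_ℝ + ‖β‖ ^ 2 := by
    have : b = b₀ + β := by rw [hβ]; abel
    rw [this, norm_add_sq_real]
  have h3 := (abs_le.mp (hη β)).1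
  nlinarith [sq_nonneg (‖β‖ - η)]

end Pool.Agent.Helper58.Gat
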