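import Pool.Agent.Helper58.Gat.Final

/-!
# The main theorem

Every separable infinite-dimensional superreflexive Banach space has an equivalent norm which is
Gateaux differentiable off `0` and whose points of Fréchet differentiability form an Aronszajn null
set.
-/

open Filter Topology MeasureTheory

open scoped InnerProductSpace

namespace Pool.Agent.Helper58.Gat

section

variable {X : Type*} [NormedAddCommGroup X] [NormedSpace ℝ X] {S : l2 →L[ℝ] X} {R : X →L[ℝ] l2}

/-- A point `x ≠ 0` of Fréchet differentiability of the norm is a bad point of every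
configuration. -/
lemma bad_of_differentiableAt (D : ℕ → Cfg S R) {x : X} (hx : x ≠ 0) 
    (hd : DifferentiableAt ℝ (NN D) x) (k : ℕ) : (D k).Bad x := by
  by_contra hgood
  have hFd : DifferentiableAt ℝ (fun z => NN D z ^ 2) x := hd.pow 2
  obtain ⟨f, hf⟩ := hFd
  set P := (D k).p ((D k).prox x) with hPdef
  have hP : 0 < P := (D k).p_prox_pos hx
  have hc := (D k).hc0
  have hε : 0 < (1 / 2 : ℝ) ^ k * (P * (D k).c) / 4 := by positivity
  rw [hasFDerivAt_iff_isLittleO_nhds_zero, Asymptotics.isLittleO_iff] at hf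
  have h1 := hf hε
  obtain ⟨δ, hδ, h2⟩ := Metric.eventually_nhds_iff.mp h1
  obtain ⟨h, hh1, hh2⟩ := (D k).second_diff hx hgood (t := δ / 2) (by positivity)
  have h3 := h2 (y := h) (by rw [dist_zero_right]; linarith)
  have h4 := h2 (y := -h) (by rw [dist_zero_right, norm_neg]; linarith)
  rw [NN_sq, NN_sq, Real.norm_eq_abs] at h3 h4
  rw [map_neg, norm_neg, ← sub_eq_add_neg] at h4
  have h5 : (1 / 2 : ℝ) ^ k * ((D k).N (x + h) ^ 2 + (D k).N (x - h) ^ 2 - 2 * (D k).N x ^ 2) ≤ 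
      FF D (x + h) + FF D (x - h) - 2 * FF D x := by
    have hs := (((summable_FF D (x + h)).hasSum.add (summable_FF D (x - h)).hasSum).sub 
      ((summable_FF D x).hasSum.mul_left 2))
    have h6 := le_hasSum hs k (by
      intro j _
      have h7 := map_add_le_add (D j).N (x + h) (x - h)
      have h8 : x + h + (x - h) = (2 : ℝ) • x := by rw [two_smul]; abel
      rw [h8, map_smul_eq_mul, Real.norm_eq_abs, abs_of_pos (by norm_num : (0 : ℝ) < 2)] at h7
      have h9 : (2 * (D j).N x) ^ 2 ≤ ((D j).N (x + h) + (D j).N (x - h)) ^ 2 := 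
        pow_le_pow_left₀ (by have : 0 ≤ (D j).N x := apply_nonneg _ _
                             positivity) h7 2
      have h10 : 2 * (D j).N x ^ 2 ≤ (D j).N (x + h) ^ 2 + (D j).N (x - h) ^ 2 := by
        nlinarith [sq_nonneg ((D j).N (x + h) - (D j).N (x - h))]
      have h11 : (0 : ℝ) ≤ (1 / 2) ^ j := by positivity
      have h12 := mul_le_mul_of_nonneg_left h10 h11
      linarith)
    refine le_trans (le_of_eq ?_) h6
    ring
  have h6 := abs_le.mp h3
  have h7 := abs_le.mp h4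
  have h8 : (1 / 2 : ℝ) ^ k * (P * (D k).c * (δ / 2)) ≤ 
      (1 / 2 : ℝ) ^ k * ((D k).N (x + h) ^ 2 + (D k).N (x - h) ^ 2 - 2 * (D k).N x ^ 2) := 
    mul_le_mul_of_nonneg_left hh2 (by positivity)
  have h9 : (1 / 2 : ℝ) ^ k * (P * (D k).c) / 4 * ‖h‖ ≤ (1 / 2 : ℝ) ^ k * (P * (D k).c) / 4 * (δ / 2) := 
    mul_le_mul_of_nonneg_left hh1 hε.le
  have h10 : 0 < (1 / 2 : ℝ) ^ k * (P * (D k).c) * δ := by positivity
  nlinarith [h6.1, h6.2, h7.1, h7.2]

lemma not_differentiableAt_zero [Nontrivial X] (D : ℕ → Cfg S R) : ¬ DifferentiableAt ℝ (NN D) 0 := by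
  intro hd
  obtain ⟨v, hv⟩ := exists_ne (0 : X)
  have h1 : DifferentiableAt ℝ (fun t : ℝ => NN D (t • v)) 0 := by
    have h2 : DifferentiableAt ℝ (fun t : ℝ => t • v) 0 := by fun_prop
    have h3 : DifferentiableAt ℝ (NN D) ((fun t : ℝ => t • v) 0) := by
      simpa using hd
    exact DifferentiableAt.comp (g := NN D) (f := fun t : ℝ => t • v) (0 : ℝ) h3 h2
  have h2 : (fun t : ℝ => NN D (t • v)) = fun t => |t| * NN D v := by
    funext t
    exact NN_smul D t v
  rw [h2] at h1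
  have h3 : DifferentiableAt ℝ (fun t : ℝ => (|t| * NN D v) * (NN D v)⁻¹) 0 := h1.mul_const _
  have h4 : (fun t : ℝ => (|t| * NN D v) * (NN D v)⁻¹) = fun t => |t| := by
    funext t
    rw [mul_inv_cancel_right₀ (NN_pos D hv).ne']
  rw [h4] at h3
  exact not_differentiableAt_abs_zero h3

end

theorem main (X : Type) [NormedAddCommGroup X] [NormedSpace ℝ X] [CompleteSpace X]
    [TopologicalSpace.SeparableSpace X] (hinf : ¬ FiniteDimensional ℝ X)
    (hM : ∃ M : X → ℝ, (∀ x y : X, M (x + y) ≤ M x + M y) ∧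
          (∀ (c : ℝ) (x : X), M ((c : ℝ) • x) = |c| * M x) ∧
          (∃ a b : ℝ, 0 < a ∧ 0 < b ∧ ∀ x : X, a * ‖x‖ ≤ M x ∧ M x ≤ b * ‖x‖) ∧
          ∀ ε : ℝ, 0 < ε → ∃ δ : ℝ, 0 < δ ∧ ∀ x y : X,
            M x ≤ 1 → M y ≤ 1 → ε ≤ M (x - y) → M (x + y) ≤ 2 - δ) :
      ∃ N : X → ℝ, (∀ x y : X, N (x + y) ≤ N x + N y) ∧
        (∀ (c : ℝ) (x : X), N ((c : ℝ) • x) = |c| * N x) ∧
        (∃ a b : ℝ, 0 < a ∧ 0 < b ∧ ∀ x : X, a * ‖x‖ ≤ N x ∧ N x ≤ b * ‖x‖) ∧
        (∀ x : X, x ≠ 0 → ∃ f : X →L[ℝ] ℝ, ∀ v : X,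
            HasDerivAt (fun t : ℝ => N (x + (t : ℝ) • v)) (f v) (0 : ℝ)) ∧
        ∀ e : ℕ → X,
          Dense ((Submodule.span ℝ (Set.range e) : Submodule ℝ X) : Set X) →
          ∃ B : ℕ → Set X, (∀ n : ℕ, @MeasurableSet X (borel X) (B n)) ∧
            (∀ (n : ℕ) (y : X),
              (MeasureTheory.volume : MeasureTheory.Measure ℝ)
                {t : ℝ | y + (t : ℝ) • e n ∈ B n} = 0) ∧
            {x : X | DifferentiableAt ℝ N x} ⊆ ⋃ n : ℕ, B n := by
  obtain ⟨M, hadd, hsmul, ⟨a, b, ha, hb, hab⟩, hUC⟩ := hM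
  obtain ⟨F⟩ := exists_Fun X hinf M hadd hsmul ha hb hab hUC
  obtain ⟨S, R, D, ν, hSd, hRi, hν, hgf, hc, hτ⟩ := exists_family F
  haveI : Nontrivial X := by
    by_contra hcon
    rw [not_nontrivial_iff_subsingleton] at hcon
    exact hinf inferInstance
  refine ⟨NN D, NN_add_le D, NN_smul D, ⟨1 / 4, 6, by norm_num, by norm_num, 
    fun x => ⟨le_NN D x, NN_le D x⟩⟩, fun x hx => gateaux D hSd hx, ?_⟩
  intro e he
  letI : MeasurableSpace X := borel X
  haveI : BorelSpace X := ⟨rfl⟩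
  -- an independent subfamily
  obtain ⟨κ, j, hj, hspan, hind⟩ := exists_linearIndependent' ℝ e
  have hκ : Infinite κ := by
    by_contra hcon
    rw [not_infinite_iff_finite] at hcon
    have h1 : FiniteDimensional ℝ (Submodule.span ℝ (Set.range (e ∘ j))) := 
      FiniteDimensional.span_of_finite ℝ (Set.finite_range _)
    have h2 : IsClosed ((Submodule.span ℝ (Set.range (e ∘ j)) : Submodule ℝ X) : Set X) := 
      Submodule.closed_of_finiteDimensional _
    rw [hspan] at h1 h2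
    have h3 : ((Submodule.span ℝ (Set.range e) : Submodule ℝ X) : Set X) = Set.univ := by
      rw [← h2.closure_eq]
      exact he.closure_eq
    have h4 : Submodule.span ℝ (Set.range e) = ⊤ := by
      apply SetLike.coe_injective
      rw [h3, Submodule.top_coe]
    rw [h4] at h1
    exact hinf (Module.Finite.equiv Submodule.topEquiv)
  set d : ℕ := 2 * (F.q + 1) + 1 with hd
  obtain ⟨emb⟩ : Nonempty (Fin d ↪ κ) := ⟨(Fin.valEmbedding).trans (Infinite.natEmbedding κ)⟩
  set idx : Fin d → ℕ := fun i => j (emb i) with hidx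
  have hu : LinearIndependent ℝ (fun i : Fin d => e (idx i)) := hind.comp emb emb.injective
  -- the set of points of differentiability
  have hAmeas : MeasurableSet {x : X | DifferentiableAt ℝ (NN D) x} := 
    measurableSet_of_differentiableAt ℝ (NN D)
  have hnull : ∀ x : X, volume {t : Fin d → ℝ | x + ∑ i, t i • e (idx i) ∈ 
      {x : X | DifferentiableAt ℝ (NN D) x}} = 0 := by
    intro x
    refine measure_mono_null ?_ 
      (bad_null F D ν hRi hν hgf hc hτ (s := F.q + 1) (d := d) rfl rfl (fun i => e (idx i)) hu x)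
    intro t ht
    have ht' : DifferentiableAt ℝ (NN D) (line (fun i => e (idx i)) x t) := ht
    have hne : line (fun i => e (idx i)) x t ≠ 0 := by
      intro h0
      rw [h0] at ht'
      exact not_differentiableAt_zero D ht'
    exact ⟨hne, fun k => bad_of_differentiableAt D hne ht' k⟩
  obtain ⟨B, hB1, hB2, hB3⟩ := decomp d (fun i => e (idx i)) _ hAmeas hnull
  refine ⟨fun n => ⋃ i : {i : Fin d // idx i = n}, B i.1, ?_, ?_, ?_⟩
  · intro n
    exact MeasurableSet.iUnion (fun i => hB1 i.1)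
  · intro n y
    have h1 : {t : ℝ | y + t • e n ∈ ⋃ i : {i : Fin d // idx i = n}, B i.1} = 
        ⋃ i : {i : Fin d // idx i = n}, {t : ℝ | y + t • e n ∈ B i.1} := by
      ext t
      simp only [Set.mem_iUnion, Set.mem_ofPred_eq]
    rw [h1]
    apply measure_iUnion_null
    rintro ⟨i, rfl⟩
    exact hB2 i y
  · intro x hx
    obtain ⟨i, hi⟩ := Set.mem_iUnion.mp (hB3 hx)
    exact Set.mem_iUnion.mpr ⟨idx i, Set.mem_iUnion.mpr ⟨⟨i, rfl⟩, hi⟩⟩

end Pool.Agent.Helper58.Gat
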