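import Pool.Agent.Helper58.Gat.P2

/-!
# The measure of the bad points in a finite-dimensional affine subspace
-/

open Filter Topology MeasureTheory Finset

namespace Pool.Agent.Helper58.Gat

variable {X : Type*} [NormedAddCommGroup X] [NormedSpace ℝ X]
variable {H : Type*} [NormedAddCommGroup H] [InnerProductSpace ℝ H] [CompleteSpace H]

/-- the parametrised affine subspace -/
def line {d : ℕ} (u : Fin d → X) (x' : X) (t : Fin d → ℝ) : X := x' + ∑ i, t i • u i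

namespace Cfg

variable {S : H →L[ℝ] X} {R : X →L[ℝ] H} (D : Cfg S R)

lemma volume_bad_le {d : ℕ} (u : Fin d → X) (x' : X) {ρ M K : ℝ} 
    (hM : ∀ t : Fin d → ℝ, (∀ i, |t i| ≤ ρ) → 4 * ‖line u x' t‖ ≤ M) (hM0 : 0 < M) (hK0 : 0 ≤ K)
    (hK : ∀ t t' : Fin d → ℝ, ‖t - t'‖ ≤ K * ‖R (line u x' t - line u x' t')‖)
    (W : ℕ → ℝ) (hW : ∀ l, 0 < W l)
    (hWt : ∀ t : Fin d → ℝ, (∀ i, |t i| ≤ ρ) → ∀ l, D.wt l (D.prox (line u x' t)) ≤ W l) :
    volume {t : Fin d → ℝ | (∀ i, |t i| ≤ ρ) ∧ line u x' t ≠ 0 ∧ D.Bad (line u x' t)} ≤ 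
      ∑' l, ENNReal.ofReal (2 * (M / Real.sqrt (W l) + 1) * 
        (K * ((14 * M + 11) * Real.sqrt (W l))) ^ d) := by
  set Z : ℕ → ℝ → ℕ → Set (Fin d → ℝ) := fun i σ q => 
    {t | D.IsType i σ (W i) (line u x' t) ∧ D.p (D.prox (line u x' t)) ≤ M ∧ 
      (q : ℝ) * Real.sqrt (W i) ≤ D.p (D.prox (line u x' t)) ∧ 
      D.p (D.prox (line u x' t)) ≤ ((q : ℝ) + 1) * Real.sqrt (W i)} with hZ
  have hsub : {t : Fin d → ℝ | (∀ i, |t i| ≤ ρ) ∧ line u x' t ≠ 0 ∧ D.Bad (line u x' t)} ⊆ 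
      ⋃ i, ⋃ σ ∈ ({1, -1} : Finset ℝ), ⋃ q ∈ range (⌊M / Real.sqrt (W i)⌋₊ + 1), Z i σ q := by
    rintro t ⟨ht, hne, hbad⟩
    obtain ⟨i, hact, hmax⟩ := D.exists_type hbad
    set x := line u x' t with hx
    have hs0 : 0 < Real.sqrt (W i) := Real.sqrt_pos.mpr (hW i)
    have hP0 : 0 < D.p (D.prox x) := D.p_prox_pos hne
    have hPM : D.p (D.prox x) ≤ M := (D.p_prox_le x).trans (hM t ht)
    have htype : ∀ σ : ℝ, σ * D.yf i (D.prox x) = |D.yf i (D.prox x)| → D.IsType i σ (W i) x := by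
      intro σ hσ
      exact ⟨hP0, hact, fun l hl => hmax l (lt_of_le_of_lt (hWt t ht i) hl), hWt t ht i, hσ⟩
    have hq : ⌊D.p (D.prox x) / Real.sqrt (W i)⌋₊ ∈ range (⌊M / Real.sqrt (W i)⌋₊ + 1) := by
      rw [Finset.mem_range]
      apply Nat.lt_succ_of_le
      apply Nat.floor_le_floor
      exact div_le_div_of_nonneg_right hPM hs0.le
    have hq1 : ((⌊D.p (D.prox x) / Real.sqrt (W i)⌋₊ : ℕ) : ℝ) * Real.sqrt (W i) ≤ D.p (D.prox x) := by
      rw [← le_div_iff₀ hs0]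
      exact Nat.floor_le (by positivity)
    have hq2 : D.p (D.prox x) ≤ (((⌊D.p (D.prox x) / Real.sqrt (W i)⌋₊ : ℕ) : ℝ) + 1) * Real.sqrt (W i) := by
      rw [← div_le_iff₀ hs0]
      exact (Nat.lt_floor_add_one _).le
    rw [Set.mem_iUnion]
    refine ⟨i, ?_⟩
    rcases le_total 0 (D.yf i (D.prox x)) with h | h
    · refine Set.mem_iUnion₂.mpr ⟨1, by simp, Set.mem_iUnion₂.mpr ⟨_, hq, ?_⟩⟩
      exact ⟨htype 1 (by rw [abs_of_nonneg h, one_mul]), hPM, hq1, hq2⟩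
    · refine Set.mem_iUnion₂.mpr ⟨-1, by simp, Set.mem_iUnion₂.mpr ⟨_, hq, ?_⟩⟩
      exact ⟨htype (-1) (by rw [abs_of_nonpos h]; ring), hPM, hq1, hq2⟩
  have hvol : ∀ i, ∀ σ ∈ ({1, -1} : Finset ℝ), ∀ q, volume (Z i σ q) ≤ 
      ENNReal.ofReal ((K * ((14 * M + 11) * Real.sqrt (W i))) ^ d) := by
    intro i σ hσ q
    have hs0 : 0 < Real.sqrt (W i) := Real.sqrt_pos.mpr (hW i)
    have hσ1 : |σ| ≤ 1 := by
      rw [Finset.mem_insert, Finset.mem_singleton] at hσ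
      rcases hσ with rfl | rfl <;> simp
    have hκ : 0 ≤ K * ((14 * M + 11) * Real.sqrt (W i)) := by positivity
    have hdiam : Metric.ediam (Z i σ q) ≤ ENNReal.ofReal (K * ((14 * M + 11) * Real.sqrt (W i))) := by
      apply Metric.ediam_le
      intro t ht t' ht'
      rw [edist_dist]
      apply ENNReal.ofReal_le_ofReal
      rw [dist_eq_norm]
      refine (hK t t').trans (mul_le_mul_of_nonneg_left ?_ hK0)
      apply D.type_close hσ1 (hW i) ht.1 ht'.1 ht.2.1 ht'.2.1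
      rw [abs_le]
      constructor
      · linarith [ht.2.2.1, ht'.2.2.2]
      · linarith [ht.2.2.2, ht'.2.2.1]
    refine (Real.volume_pi_le_diam_pow _).trans ?_
    rw [Fintype.card_fin, ENNReal.ofReal_pow hκ]
    exact pow_le_pow_left' hdiam d
  refine (measure_mono hsub).trans ((measure_iUnion_le _).trans ?_)
  apply ENNReal.tsum_le_tsum
  intro i
  have hs0 : 0 < Real.sqrt (W i) := Real.sqrt_pos.mpr (hW i)
  set n := ⌊M / Real.sqrt (W i)⌋₊ + 1 with hn
  set a := ENNReal.ofReal ((K * ((14 * M + 11) * Real.sqrt (W i))) ^ d) with ha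
  calc volume (⋃ σ ∈ ({1, -1} : Finset ℝ), ⋃ q ∈ range n, Z i σ q) 
      ≤ ∑ σ ∈ ({1, -1} : Finset ℝ), volume (⋃ q ∈ range n, Z i σ q) := 
        measure_biUnion_finset_le _ _
    _ ≤ ∑ σ ∈ ({1, -1} : Finset ℝ), (n : ENNReal) * a := by
        apply Finset.sum_le_sum
        intro σ hσ
        calc volume (⋃ q ∈ range n, Z i σ q) ≤ ∑ q ∈ range n, volume (Z i σ q) := 
              measure_biUnion_finset_le _ _
          _ ≤ ∑ q ∈ range n, a := Finset.sum_le_sum (fun q _ => hvol i σ hσ q)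
          _ = (n : ENNReal) * a := by rw [Finset.sum_const, Finset.card_range, nsmul_eq_mul]
    _ ≤ 2 * ((n : ENNReal) * a) := by
        rw [Finset.sum_const, nsmul_eq_mul]
        apply mul_le_mul_left
        have : ({1, -1} : Finset ℝ).card ≤ 2 := Finset.card_le_two
        exact_mod_cast this
    _ ≤ ENNReal.ofReal (2 * (M / Real.sqrt (W i) + 1) * 
        (K * ((14 * M + 11) * Real.sqrt (W i))) ^ d) := by
        rw [ENNReal.ofReal_mul (by positivity), ENNReal.ofReal_mul (by norm_num), ← ha, mul_assoc]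
        have h2 : ENNReal.ofReal 2 = 2 := by simp
        rw [h2]
        apply mul_le_mul_right
        apply mul_le_mul_left
        rw [← ENNReal.ofReal_natCast]
        apply ENNReal.ofReal_le_ofReal
        rw [hn]
        push_cast
        have := Nat.floor_le (show 0 ≤ M / Real.sqrt (W i) by positivity)
        linarith

end Cfg

end Pool.Agent.Helper58.Gat
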