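import Pool.Agent.Helper58.Gat.Base

/-!
# The norm with many small caps, and the proximal analysis
-/

open Filter Topology

open scoped InnerProductSpace

namespace Pool.Agent.Helper58.Gat

variable {X : Type*} [NormedAddCommGroup X] [NormedSpace ℝ X]
variable {H : Type*} [NormedAddCommGroup H] [InnerProductSpace ℝ H] [CompleteSpace H]

lemma seminorm_continuous (q : Seminorm ℝ X) {C : ℝ} (h : ∀ x, q x ≤ C * ‖x‖) : Continuous q := by
  apply (LipschitzWith.of_dist_le_mul (K := Real.toNNReal C) _).continuous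
  intro x y
  rw [Real.dist_eq, dist_eq_norm]
  have h1 : |q x - q y| ≤ q (x - y) := abs_sub_map_le_sub q x y
  refine h1.trans ((h _).trans ?_)
  exact mul_le_mul_of_nonneg_right (Real.le_coe_toNNReal C) (norm_nonneg _)

/-- data for the construction of one norm -/
structure Cfg (S : H →L[ℝ] X) (R : X →L[ℝ] H) where
  hS : ∀ β, ‖S β‖ ≤ ‖β‖
  hR : ∀ x, ‖R x‖ ≤ ‖x‖
  yf : ℕ → (X →L[ℝ] ℝ)
  hyf : ∀ l z, |yf l z| ≤ rr S R z
  hyf2 : ∀ z (ε : ℝ) (m : ℕ), 0 < ε → ∃ l, m ≤ l ∧ rr S R z - ε < yf l z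
  gf : ℕ → (X →L[ℝ] ℝ)
  uf : ℕ → X
  huf : ∀ l, ‖uf l‖ ≤ 1
  hguf : ∀ l, 1 / 2 ≤ gf l (uf l)
  c : ℝ
  hc0 : 0 < c
  hc1 : c ≤ 1
  hc : ∀ l z, c * |gf l z| ≤ rr S R z
  τ : ℕ → ℝ
  hτ0 : ∀ l, 0 < τ l
  hτ1 : ∀ l, τ l ≤ 1
  hgS : ∀ l β, |gf l (S β)| ≤ τ l * ‖β‖
  hgf : ∀ z, Tendsto (fun l => gf l z) atTop (𝓝 0)
  hτ : Tendsto τ atTop (𝓝 0)

namespace Cfg

variable {S : H →L[ℝ] X} {R : X →L[ℝ] H} (D : Cfg S R)

/-- the functional `|y_l| + c |g_l|` -/
noncomputable def L (l : ℕ) : Seminorm ℝ X := 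
  Seminorm.of (fun z => |D.yf l z| + D.c * |D.gf l z|) 
    (by
      intro x y
      rw [map_add, map_add]
      have h1 := abs_add_le (D.yf l x) (D.yf l y)
      have h2 := abs_add_le (D.gf l x) (D.gf l y)
      have h3 := mul_le_mul_of_nonneg_left h2 D.hc0.le
      linarith)
    (by
      intro a x
      rw [map_smul, map_smul, smul_eq_mul, smul_eq_mul, abs_mul, abs_mul, Real.norm_eq_abs]
      ring)

lemma L_apply (l : ℕ) (z : X) : D.L l z = |D.yf l z| + D.c * |D.gf l z| := rfl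

lemma L_le (l : ℕ) (z : X) : D.L l z ≤ 2 * rr S R z := by
  rw [L_apply]
  linarith [D.hyf l z, D.hc l z]

/-- the norm with caps, as a function -/
noncomputable def pf (z : X) : ℝ := ⨆ l, max (rr S R z) (D.L l z)

lemma bdd (z : X) : BddAbove (Set.range (fun l => max (rr S R z) (D.L l z))) := by
  refine ⟨2 * rr S R z, ?_⟩
  rintro _ ⟨l, rfl⟩
  have : 0 ≤ rr S R z := apply_nonneg _ z
  exact max_le (by linarith) (D.L_le l z)

lemma le_pf (z : X) : rr S R z ≤ D.pf z := 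
  (le_max_left _ _).trans (le_ciSup (D.bdd z) 0)

lemma L_le_pf (l : ℕ) (z : X) : D.L l z ≤ D.pf z := 
  (le_max_right _ _).trans (le_ciSup (D.bdd z) l)

lemma pf_le {z : X} {a : ℝ} (h1 : rr S R z ≤ a) (h2 : ∀ l, D.L l z ≤ a) : D.pf z ≤ a := 
  ciSup_le (fun l => max_le h1 (h2 l))

/-- the norm with caps -/
noncomputable def p : Seminorm ℝ X := 
  Seminorm.of D.pf 
    (by
      intro x y
      apply D.pf_le
      · exact (map_add_le_add _ x y).trans (add_le_add (D.le_pf x) (D.le_pf y))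
      · intro l
        exact (map_add_le_add _ x y).trans (add_le_add (D.L_le_pf l x) (D.L_le_pf l y)))
    (by
      intro a x
      unfold pf
      rw [Real.norm_eq_abs, Real.mul_iSup_of_nonneg (abs_nonneg a)]
      congr 1
      ext l
      rw [map_smul_eq_mul, map_smul_eq_mul, Real.norm_eq_abs, mul_max_of_nonneg _ _ (abs_nonneg a)])

lemma rr_le_p (z : X) : rr S R z ≤ D.p z := D.le_pf z

lemma L_le_p (l : ℕ) (z : X) : D.L l z ≤ D.p z := D.L_le_pf l z

lemma p_le {z : X} {a : ℝ} (h1 : rr S R z ≤ a) (h2 : ∀ l, D.L l z ≤ a) : D.p z ≤ a := D.pf_le h1 h2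

lemma p_le_two (z : X) : D.p z ≤ 2 * rr S R z := by
  have : 0 ≤ rr S R z := apply_nonneg _ z
  exact D.p_le (by linarith) (fun l => D.L_le l z)

lemma p_le_norm (z : X) : D.p z ≤ 4 * ‖z‖ := by
  have h1 := D.p_le_two z
  have h2 := rr_le D.hR (S := S) z
  linarith

lemma norm_le_p (z : X) : ‖z‖ ≤ 2 * D.p z := by
  have h1 := le_rr D.hS R z
  have h2 := D.rr_le_p z
  linarith

lemma p_S_le (β : H) : D.p (S β) ≤ 4 * ‖β‖ := by
  have h1 := D.p_le_two (S β)
  have h2 := rr_S_le D.hS D.hR β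
  linarith

lemma p_continuous : Continuous D.p := seminorm_continuous D.p D.p_le_norm

/-- the weight -/
noncomputable def wt (l : ℕ) (y : X) : ℝ := D.c * |D.gf l y| + D.τ l

lemma wt_pos (l : ℕ) (y : X) : 0 < D.wt l y := by
  unfold wt
  have := D.hτ0 l
  have := D.hc0
  positivity

lemma wt_tendsto (y : X) : Tendsto (fun l => D.wt l y) atTop (𝓝 0) := by
  unfold wt
  have h1 : Tendsto (fun l => D.c * |D.gf l y| + D.τ l) atTop (𝓝 (D.c * |(0 : ℝ)| + 0)) := 
    ((D.hgf y).abs.const_mul D.c).add D.hτ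
  simpa using h1

omit [CompleteSpace H] in
lemma segment (q : Seminorm ℝ X) (y v : X) {s t P κ : ℝ} (hs : 0 < s) (ht : 0 ≤ t) (hts : t ≤ s) 
    (h1 : q y ≤ P) (h2 : q (y + s • v) ≤ P + s * κ) : q (y + t • v) ≤ P + t * κ := by
  set θ := t / s with hθ
  have hθ0 : 0 ≤ θ := by positivity
  have hθ1 : θ ≤ 1 := by rw [hθ, div_le_one hs]; exact hts
  have hθs : θ * s = t := by rw [hθ, div_mul_cancel₀ _ hs.ne']
  have e : y + t • v = (1 - θ) • y + θ • (y + s • v) := by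
    rw [smul_add, smul_smul, hθs]
    module
  rw [e]
  refine (map_add_le_add q _ _).trans ?_
  rw [map_smul_eq_mul, map_smul_eq_mul, Real.norm_eq_abs, Real.norm_eq_abs, abs_of_nonneg hθ0, 
    abs_of_nonneg (by linarith : (0 : ℝ) ≤ 1 - θ)]
  have h3 : (1 - θ) * q y ≤ (1 - θ) * P := mul_le_mul_of_nonneg_left h1 (by linarith)
  have h4 : θ * q (y + s • v) ≤ θ * (P + s * κ) := mul_le_mul_of_nonneg_left h2 hθ0
  have h5 : θ * (P + s * κ) = θ * P + t * κ := by rw [← hθs]; ring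
  linarith

/-- **Directional bound.** -/
lemma dir_bound {y : X} (hP : 0 < D.p y) {w : ℝ} (hw : 0 < w) {ψ : X →L[ℝ] ℝ} 
    (hψ : ∀ z, ψ z ≤ rr S R z) (hψy : D.p y - w ≤ ψ y) 
    (hact : ∀ l, w < D.wt l y → D.L l y < D.p y) {β : H} (hβ : ‖β‖ ≤ 1) : 
    ∃ t₀ : ℝ, 0 < t₀ ∧ ∀ t : ℝ, 0 < t → t ≤ t₀ → 
      D.p (y + t • S β) ≤ D.p y + t * (ψ (S β) + (3 + 4 / D.p y) * Real.sqrt w) := by
  set P := D.p y with hPdef
  set κ := ψ (S β) + (3 + 4 / P) * Real.sqrt w with hκ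
  set s := Real.sqrt w with hs
  have hs0 : 0 < s := Real.sqrt_pos.mpr hw
  have hss : s * s = w := Real.mul_self_sqrt hw.le
  have hr : P / 2 ≤ rr S R y := by
    have := D.p_le_two y
    linarith
  have hr0 : 0 < rr S R y := by linarith
  have hrP : rr S R y ≤ P := D.rr_le_p y
  -- bound at distance `s`
  have hz : rr S R (y + s • S β) ≤ P + s * κ - 2 * w := by
    have h1 := rr_smooth D.hS D.hR y hr0 (s • β)
    rw [map_smul] at h1
    have h2 : ‖s • β‖ ^ 2 ≤ w := by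
      rw [norm_smul, Real.norm_eq_abs, abs_of_pos hs0, mul_pow, sq s, hss]
      have : ‖β‖ ^ 2 ≤ 1 := by nlinarith [norm_nonneg β]
      nlinarith
    have h3 : 2 * ‖s • β‖ ^ 2 / rr S R y ≤ 4 * w / P := by
      rw [div_le_div_iff₀ hr0 hP]
      nlinarith
    have h4 := hψ (y - s • S β)
    rw [map_sub, map_smul, smul_eq_mul] at h4
    have h5 : s * κ = s * ψ (S β) + (3 * w + 4 * w / P) := by
      rw [hκ]
      have : s * (ψ (S β) + (3 + 4 / P) * s) = s * ψ (S β) + (3 + 4 / P) * (s * s) := by ring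
      rw [this, hss]
      ring
    linarith
  have hrseg : ∀ t : ℝ, 0 < t → t ≤ s → rr S R (y + t • S β) ≤ P + t * κ := by
    intro t ht hts
    exact segment (rr S R) y (S β) hs0 ht.le hts hrP (by linarith)
  have hLseg : ∀ l, D.wt l y ≤ w → ∀ t : ℝ, 0 < t → t ≤ s → D.L l (y + t • S β) ≤ P + t * κ := by
    intro l hl t ht hts
    apply segment (D.L l) y (S β) hs0 ht.le hts (D.L_le_p l y)
    have h1 := D.hyf l (y + s • S β)
    have h2 : |D.gf l (y + s • S β)| ≤ |D.gf l y| + s * D.τ l := by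
      rw [map_add, map_smul, smul_eq_mul]
      refine (abs_add_le _ _).trans ?_
      rw [abs_mul, abs_of_pos hs0]
      have h3 := D.hgS l β
      have h4 : D.τ l * ‖β‖ ≤ D.τ l := by nlinarith [D.hτ0 l]
      have h5 : s * |D.gf l (S β)| ≤ s * D.τ l := mul_le_mul_of_nonneg_left (h3.trans h4) hs0.le
      linarith
    have h3 : D.τ l ≤ s := by
      have h6 : D.τ l ≤ w := by
        unfold wt at hl
        have : 0 ≤ D.c * |D.gf l y| := mul_nonneg D.hc0.le (abs_nonneg _)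
        linarith
      rw [hs]
      apply Real.le_sqrt_of_sq_le
      nlinarith [D.hτ0 l, D.hτ1 l]
    have h4 : D.c * |D.gf l y| ≤ w := by
      unfold wt at hl
      linarith [D.hτ0 l]
    have h5 : D.c * (s * D.τ l) ≤ w := by
      calc D.c * (s * D.τ l) ≤ 1 * (s * D.τ l) := 
            mul_le_mul_of_nonneg_right D.hc1 (mul_nonneg hs0.le (D.hτ0 l).le)
        _ ≤ 1 * (s * s) := by
            apply mul_le_mul_of_nonneg_left _ (by norm_num)
            exact mul_le_mul_of_nonneg_left h3 hs0.le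
        _ = w := by rw [one_mul, hss]
    rw [L_apply]
    have h6 : D.c * |D.gf l (y + s • S β)| ≤ D.c * (|D.gf l y| + s * D.τ l) := 
      mul_le_mul_of_nonneg_left h2 D.hc0.le
    rw [mul_add] at h6
    linarith
  -- the finitely many remaining indices
  obtain ⟨m, hm⟩ : ∃ m, ∀ l, m ≤ l → D.wt l y ≤ w := by
    have := (D.wt_tendsto y).eventually (gt_mem_nhds hw)
    obtain ⟨m, hm⟩ := eventually_atTop.mp this
    exact ⟨m, fun l hl => (hm l hl).le⟩
  have hfin : ∀ᶠ t in 𝓝[>] (0 : ℝ), ∀ l ∈ Finset.range m, w < D.wt l y → D.L l (y + t • S β) ≤ P + t * κ := by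
    rw [Filter.eventually_all_finset]
    intro l _
    by_cases hl : w < D.wt l y
    · have h1 := hact l hl
      have hcL : Continuous (fun t : ℝ => D.L l (y + t • S β)) := by
        have : Continuous (D.L l) := seminorm_continuous (D.L l) (C := 4) (fun x => by
          have h1 := D.L_le l x
          have h2 := rr_le D.hR (S := S) x
          linarith)
        exact this.comp (by fun_prop)
      have hcR : Continuous (fun t : ℝ => P + t * κ) := by fun_prop
      have h2 : ∀ᶠ t in 𝓝 (0 : ℝ), D.L l (y + t • S β) < P + t * κ := by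
        apply hcL.continuousAt.eventually_lt hcR.continuousAt
        simpa using h1
      exact (h2.filter_mono nhdsWithin_le_nhds).mono (fun t ht _ => ht.le)
    · exact Filter.Eventually.of_forall (fun t h => absurd h hl)
  rw [Filter.eventually_iff, mem_nhdsGT_iff_exists_Ioc_subset] at hfin
  obtain ⟨t₁, ht₁, hsub⟩ := hfin
  refine ⟨min s t₁, lt_min hs0 ht₁, ?_⟩
  intro t ht htle
  have hts : t ≤ s := htle.trans (min_le_left _ _)
  have htt : t ≤ t₁ := htle.trans (min_le_right _ _)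
  apply D.p_le (hrseg t ht hts)
  intro l
  by_cases hl : w < D.wt l y
  · have hlm : l < m := by
      by_contra hcon
      push Not at hcon
      exact absurd (hm l hcon) (not_le.mpr hl)
    exact hsub ⟨ht, htt⟩ l (Finset.mem_range.mpr hlm) hl
  · exact hLseg l (not_lt.mp hl) t ht hts

/-- the proximal point -/
noncomputable def prox (x : X) : X := x - S (argm D.p S x)

/-- **The minimiser is close to `P ψ ∘ S`.** -/
lemma argm_close {x : X} (hP : 0 < D.p (D.prox x)) {w : ℝ} (hw : 0 < w) {ψ : X →L[ℝ] ℝ} 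
    (hψ : ∀ z, ψ z ≤ rr S R z) (hψy : D.p (D.prox x) - w ≤ ψ (D.prox x)) 
    (hact : ∀ l, w < D.wt l (D.prox x) → D.L l (D.prox x) < D.p (D.prox x)) (β : H) : 
    |⟪argm D.p S x, β⟫_ℝ - D.p (D.prox x) * ψ (S β)| ≤ 
      (3 * D.p (D.prox x) + 4) * Real.sqrt w * ‖β‖ := by
  set P := D.p (D.prox x) with hPdef
  have key : ∀ β : H, ‖β‖ ≤ 1 → ⟪argm D.p S x, β⟫_ℝ - P * ψ (S β) ≤ (3 * P + 4) * Real.sqrt w := by
    intro β hβ
    obtain ⟨t₀, ht₀, h⟩ := D.dir_bound hP hw hψ hψy hact hβ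
    have h1 := first_order D.p_continuous S x β _ t₀ ht₀ h
    have h2 : D.p (x - S (argm D.p S x)) * (ψ (S β) + (3 + 4 / D.p (D.prox x)) * Real.sqrt w) = 
        P * ψ (S β) + (3 * P + 4) * Real.sqrt w := by
      have : D.p (x - S (argm D.p S x)) = P := rfl
      rw [this, ← hPdef]
      field_simp
    rw [h2] at h1
    linarith
  rcases eq_or_ne β 0 with rfl | hβ
  · simp
  have hn : 0 < ‖β‖ := norm_pos_iff.mpr hβ
  have hunit : ‖‖β‖⁻¹ • β‖ ≤ 1 := by
    rw [norm_smul, norm_inv, norm_norm, inv_mul_cancel₀ hn.ne']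
  have h1 := key (‖β‖⁻¹ • β) hunit
  have h2 := key (-(‖β‖⁻¹ • β)) (by rw [norm_neg]; exact hunit)
  rw [inner_smul_right, map_smul, map_smul, smul_eq_mul] at h1
  rw [inner_neg_right, map_neg, map_neg, inner_smul_right, map_smul, map_smul, smul_eq_mul] at h2
  have e1 : ‖β‖⁻¹ * ⟪argm D.p S x, β⟫_ℝ - P * (‖β‖⁻¹ * ψ (S β)) = 
      ‖β‖⁻¹ * (⟪argm D.p S x, β⟫_ℝ - P * ψ (S β)) := by ring
  have e2 : -(‖β‖⁻¹ * ⟪argm D.p S x, β⟫_ℝ) - P * -(‖β‖⁻¹ * ψ (S β)) = 
      ‖β‖⁻¹ * (-(⟪argm D.p S x, β⟫_ℝ - P * ψ (S β))) := by ring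
  rw [e1, ← div_eq_inv_mul, div_le_iff₀ hn] at h1
  rw [e2, ← div_eq_inv_mul, div_le_iff₀ hn] at h2
  exact abs_le.mpr ⟨by linarith, h1⟩

end Cfg

end Pool.Agent.Helper58.Gat
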