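import Pool.Agent.Helper58.Gat.P

/-!
# Good points are not Fréchet points, bad points have types
-/

open Filter Topology

open scoped InnerProductSpace

namespace Pool.Agent.Helper58.Gat

variable {X : Type*} [NormedAddCommGroup X] [NormedSpace ℝ X]
variable {H : Type*} [NormedAddCommGroup H] [InnerProductSpace ℝ H] [CompleteSpace H]

namespace Cfg

variable {S : H →L[ℝ] X} {R : X →L[ℝ] H} (D : Cfg S R)

/-- `x` is bad when its proximal point lies in a closed cap -/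
def Bad (x : X) : Prop := ∃ l, D.L l (D.prox x) = D.p (D.prox x)

/-- the norm of the construction -/
noncomputable def N : Seminorm ℝ X := icvS D.p D.p_continuous S

lemma N_apply (x : X) : D.N x = icv D.p S x := rfl

lemma N_sq (x : X) : D.N x ^ 2 = D.p (D.prox x) ^ 2 + ‖argm D.p S x‖ ^ 2 := icv_sq D.p S x

lemma N_le (x : X) : D.N x ≤ 4 * ‖x‖ := (icv_le D.p_continuous S x).trans (D.p_le_norm x)

lemma norm_le_N (x : X) : ‖x‖ ≤ 4 * D.N x := by
  have h1 : ‖x‖ ≤ ‖D.prox x‖ + ‖argm D.p S x‖ := by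
    calc ‖x‖ = ‖D.prox x + S (argm D.p S x)‖ := by unfold prox; congr 1; abel
      _ ≤ ‖D.prox x‖ + ‖S (argm D.p S x)‖ := norm_add_le _ _
      _ ≤ _ := by linarith [D.hS (argm D.p S x)]
  have h2 := D.norm_le_p (D.prox x)
  have h3 := D.N_sq x
  have h4 : 0 ≤ D.N x := apply_nonneg _ x
  have h5 : 0 ≤ D.p (D.prox x) := apply_nonneg _ _
  have h6 : 0 ≤ ‖argm D.p S x‖ := norm_nonneg _
  have h7 : D.p (D.prox x) ≤ D.N x := by
    apply (abs_le_of_sq_le_sq' _ h4).2
    nlinarith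
  have h8 : ‖argm D.p S x‖ ≤ D.N x := by
    apply (abs_le_of_sq_le_sq' _ h4).2
    nlinarith
  linarith

lemma argm_le (x : X) : ‖argm D.p S x‖ ≤ 4 * ‖x‖ := by
  have h3 := D.N_sq x
  have h4 : 0 ≤ D.N x := apply_nonneg _ x
  have h8 : ‖argm D.p S x‖ ≤ D.N x := by
    apply (abs_le_of_sq_le_sq' _ h4).2
    nlinarith [sq_nonneg (D.p (D.prox x))]
  exact h8.trans (D.N_le x)

lemma p_prox_le (x : X) : D.p (D.prox x) ≤ 4 * ‖x‖ := by
  have h3 := D.N_sq x
  have h4 : 0 ≤ D.N x := apply_nonneg _ x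
  have h8 : D.p (D.prox x) ≤ D.N x := by
    apply (abs_le_of_sq_le_sq' _ h4).2
    nlinarith [sq_nonneg ‖argm D.p S x‖]
  exact h8.trans (D.N_le x)

lemma p_prox_pos {x : X} (hx : x ≠ 0) : 0 < D.p (D.prox x) := by
  rcases (apply_nonneg D.p (D.prox x)).eq_or_lt with h | h
  · exfalso
    have h1 := norm_argm_le D.p_continuous S D.p_S_le (by norm_num) x
    have h2 : D.p (x - S (argm D.p S x)) = 0 := h.symm
    rw [h2, mul_zero] at h1
    have h3 := D.N_sq x
    have h4 : ‖argm D.p S x‖ = 0 := le_antisymm h1 (norm_nonneg _)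
    rw [← h, h4] at h3
    have h5 : D.N x = 0 := by
      have : D.N x ^ 2 = 0 := by rw [h3]; ring
      exact pow_eq_zero_iff (by norm_num) |>.mp this
    have h6 := D.norm_le_N x
    rw [h5, mul_zero] at h6
    exact hx (norm_le_zero_iff.mp h6)
  · exact h

/-- at a good point the norm with caps equals the base norm -/
lemma good_eq {y : X} (hgood : ∀ l, D.L l y ≠ D.p y) : D.p y = rr S R y := by
  apply le_antisymm _ (D.rr_le_p y)
  by_contra hcon
  push Not at hcon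
  set P := D.p y with hP
  set r := rr S R y with hr
  have hlt : ∀ l, D.L l y < P := fun l => lt_of_le_of_ne (D.L_le_p l y) (hgood l)
  have h1 : ∀ᶠ l in atTop, D.wt l y < (P - r) / 2 := (D.wt_tendsto y).eventually (gt_mem_nhds (by linarith))
  obtain ⟨m, hm⟩ := eventually_atTop.mp h1
  have hne : (Finset.range (m + 1)).Nonempty := ⟨0, by simp⟩
  set Q := max ((P + r) / 2) ((Finset.range (m + 1)).sup' hne (fun l => D.L l y)) with hQ
  have hQP : Q < P := by
    rw [hQ, max_lt_iff]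
    refine ⟨by linarith, ?_⟩
    rw [Finset.sup'_lt_iff]
    exact fun l _ => hlt l
  have h2 : P ≤ Q := by
    apply D.p_le
    · exact le_trans (by linarith) (le_max_left _ _)
    · intro l
      rcases Nat.lt_or_ge l (m + 1) with hl | hl
      · exact (Finset.le_sup' (fun l => D.L l y) (Finset.mem_range.mpr hl)).trans (le_max_right _ _)
      · refine le_trans ?_ (le_max_left _ _)
        have h3 := hm l (by omega)
        unfold wt at h3
        have h4 := D.hyf l y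
        have h5 := D.hτ0 l
        rw [L_apply]
        linarith
  linarith

/-- **Good points: the second difference is large.** -/
lemma second_diff {x : X} (hx : x ≠ 0) (hgood : ¬ D.Bad x) {t : ℝ} (ht : 0 < t) : 
    ∃ h : X, ‖h‖ ≤ t ∧ D.p (D.prox x) * D.c * t ≤ D.N (x + h) ^ 2 + D.N (x - h) ^ 2 - 2 * D.N x ^ 2 := by
  set y := D.prox x with hy
  set P := D.p y with hPdef
  set b₀ := argm D.p S x with hb₀
  have hP : 0 < P := D.p_prox_pos hx
  have hgood' : ∀ l, D.L l y ≠ P := fun l h => hgood ⟨l, h⟩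
  have hPr : P = rr S R y := D.good_eq hgood'
  have hlt : ∀ l, D.L l y < P := fun l => lt_of_le_of_ne (D.L_le_p l y) (hgood' l)
  -- choose `w`
  have hlim : Tendsto (fun w : ℝ => 4 * P * w + 2 * ((3 * P + 4) * Real.sqrt w + P * w) ^ 2) (𝓝[>] 0) (𝓝 0) := by
    have hc : Continuous (fun w : ℝ => 4 * P * w + 2 * ((3 * P + 4) * Real.sqrt w + P * w) ^ 2) := by
      fun_prop
    have := hc.tendsto 0
    simp only [mul_zero, Real.sqrt_zero, add_zero, ne_eq, OfNat.ofNat_ne_zero, not_false_eq_true, 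
      zero_pow] at this
    exact this.mono_left nhdsWithin_le_nhds
  have hPct : 0 < P * D.c * t := by have := D.hc0; positivity
  obtain ⟨w, hw1, hw⟩ := ((hlim.eventually (gt_mem_nhds hPct)).and self_mem_nhdsWithin).exists
  have hw0 : 0 < w := hw
  -- choose `l`
  obtain ⟨m, hm⟩ := eventually_atTop.mp (D.hτ.eventually (gt_mem_nhds hw0))
  obtain ⟨l, hl, hl2⟩ := D.hyf2 y w m hw0
  have hτl := hm l hl
  have hle : ∀ z, D.yf l z ≤ rr S R z := fun z => (le_abs_self _).trans (D.hyf l z)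
  have hclose := D.argm_close hP hw0 hle (by rw [← hy, ← hPdef, hPr]; exact hl2.le) 
    (fun l' _ => hlt l')
  rw [← hy, ← hPdef, ← hb₀] at hclose
  -- the two functionals
  have hη : ∀ σ : ℝ, |σ| ≤ 1 → ∀ β : H, |⟪b₀, β⟫_ℝ - P * ((D.yf l + (σ * D.c) • D.gf l) (S β))| ≤ 
      ((3 * P + 4) * Real.sqrt w + P * w) * ‖β‖ := by
    intro σ hσ β
    have h1 := hclose β
    have h2 := D.hgS l β
    have e : ⟪b₀, β⟫_ℝ - P * ((D.yf l + (σ * D.c) • D.gf l) (S β)) = 
        (⟪b₀, β⟫_ℝ - P * D.yf l (S β)) - P * (σ * D.c * D.gf l (S β)) := by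
      simp only [add_apply, smul_apply, smul_eq_mul]
      ring
    rw [e]
    refine (abs_sub _ _).trans ?_
    have h3 : |P * (σ * D.c * D.gf l (S β))| ≤ P * w * ‖β‖ := by
      rw [abs_mul, abs_mul, abs_mul, abs_of_pos hP, abs_of_pos D.hc0]
      have h4 : |σ| * D.c ≤ 1 := mul_le_one₀ hσ D.hc0.le D.hc1
      calc P * (|σ| * D.c * |D.gf l (S β)|) ≤ P * (1 * (D.τ l * ‖β‖)) := by
            apply mul_le_mul_of_nonneg_left _ hP.le
            exact mul_le_mul h4 h2 (abs_nonneg _) (by norm_num)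
        _ ≤ P * (1 * (w * ‖β‖)) := by
            apply mul_le_mul_of_nonneg_left _ hP.le
            apply mul_le_mul_of_nonneg_left _ (by norm_num)
            exact mul_le_mul_of_nonneg_right hτl.le (norm_nonneg _)
        _ = P * w * ‖β‖ := by ring
    linarith
  have hφle : ∀ σ : ℝ, |σ| ≤ 1 → ∀ z, (D.yf l + (σ * D.c) • D.gf l) z ≤ D.p z := by
    intro σ hσ z
    refine le_trans ?_ (D.L_le_p l z)
    rw [L_apply]
    simp only [add_apply, smul_apply, smul_eq_mul]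
    have h1 := le_abs_self (D.yf l z)
    have h2 : σ * D.c * D.gf l z ≤ D.c * |D.gf l z| := by
      refine (le_abs_self _).trans ?_
      rw [abs_mul, abs_mul, abs_of_pos D.hc0]
      have : |σ| * D.c ≤ 1 * D.c := mul_le_mul_of_nonneg_right hσ D.hc0.le
      rw [one_mul] at this
      exact mul_le_mul_of_nonneg_right this (abs_nonneg _)
    linarith
  refine ⟨t • D.uf l, ?_, ?_⟩
  · rw [norm_smul, Real.norm_eq_abs, abs_of_pos ht]
    have := D.huf l
    nlinarith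
  have hplus := icv_lower D.p S x (D.yf l + ((1 : ℝ) * D.c) • D.gf l) (hφle 1 (by simp)) hP.le 
    (hη 1 (by simp)) (t • D.uf l)
  have hminus := icv_lower D.p S x (D.yf l + ((-1 : ℝ) * D.c) • D.gf l) (hφle (-1) (by simp)) hP.le 
    (hη (-1) (by simp)) (-(t • D.uf l))
  rw [← hb₀, ← sub_eq_add_neg] at hminus
  rw [← hb₀] at hplus
  have hNx := D.N_sq x
  rw [← hy, ← hPdef, ← hb₀] at hNx
  rw [N_apply, N_apply, hNx, sub_eq_add_neg x]
  have hy' : x - S b₀ = y := rfl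
  rw [hy'] at hplus hminus
  simp only [add_apply, smul_apply, smul_eq_mul, map_add, map_smul, map_sub] at hplus hminus
  have h5 : D.yf l y ≤ P := by
    rw [hPr]; exact hle y
  have h6 := D.hguf l
  rw [← hPr] at hl2
  have h7 : P * w ≥ P * (P - D.yf l y) := mul_le_mul_of_nonneg_left (by linarith) hP.le
  have h8 : P * D.c * t * (1 / 2) ≤ P * D.c * t * D.gf l (D.uf l) := 
    mul_le_mul_of_nonneg_left h6 hPct.le
  have e1 : 2 * P * (D.yf l y + 1 * D.c * D.gf l y + t * (D.yf l (D.uf l) + 1 * D.c * D.gf l (D.uf l))) + 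
      2 * P * (D.yf l y + -1 * D.c * D.gf l y - t * (D.yf l (D.uf l) + -1 * D.c * D.gf l (D.uf l))) = 
      4 * P ^ 2 - 4 * (P * (P - D.yf l y)) + 4 * (P * D.c * t * D.gf l (D.uf l)) := by ring
  linarith

/-- **Type of a bad point.** -/
lemma exists_type {y : X} (h : ∃ l, D.L l y = D.p y) : 
    ∃ i, D.L i y = D.p y ∧ ∀ l, D.wt i y < D.wt l y → D.L l y < D.p y := by
  classical
  obtain ⟨l₀, hl₀⟩ := h
  obtain ⟨m, hm⟩ := eventually_atTop.mp ((D.wt_tendsto y).eventually (gt_mem_nhds (D.wt_pos l₀ y)))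
  set A := (Finset.range (max m (l₀ + 1))).filter (fun l => D.L l y = D.p y) with hA
  have hne : A.Nonempty := ⟨l₀, by
    rw [hA, Finset.mem_filter, Finset.mem_range]
    exact ⟨lt_of_lt_of_le (Nat.lt_succ_self _) (le_max_right _ _), hl₀⟩⟩
  obtain ⟨i, hi, hmax⟩ := A.exists_max_image (fun l => D.wt l y) hne
  refine ⟨i, (Finset.mem_filter.mp hi).2, ?_⟩
  intro l hl
  apply lt_of_le_of_ne (D.L_le_p l y)
  intro hact
  have h1 : D.wt l₀ y ≤ D.wt i y := by
    apply hmax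
    rw [hA, Finset.mem_filter, Finset.mem_range]
    exact ⟨lt_of_lt_of_le (Nat.lt_succ_self _) (le_max_right _ _), hl₀⟩
  have h2 : l < m := by
    by_contra hcon
    push Not at hcon
    have := hm l hcon
    linarith
  have h3 : l ∈ A := by
    rw [hA, Finset.mem_filter, Finset.mem_range]
    exact ⟨lt_of_lt_of_le h2 (le_max_left _ _), hact⟩
  have := hmax l h3
  linarith

/-- `x` has type `(i, σ)` with weight at most `w` -/
structure IsType (i : ℕ) (σ : ℝ) (w : ℝ) (x : X) : Prop where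
  pos : 0 < D.p (D.prox x)
  act : D.L i (D.prox x) = D.p (D.prox x)
  max : ∀ l, w < D.wt l (D.prox x) → D.L l (D.prox x) < D.p (D.prox x)
  le : D.wt i (D.prox x) ≤ w
  sgn : σ * D.yf i (D.prox x) = |D.yf i (D.prox x)|

/-- **Points of the same type and layer are close in the seminorm `‖R ·‖`.** -/
lemma type_close {i : ℕ} {σ w M : ℝ} (hσ : |σ| ≤ 1) (hw : 0 < w) {x₁ x₂ : X} (h₁ : D.IsType i σ w x₁) 
    (h₂ : D.IsType i σ w x₂) (hM₁ : D.p (D.prox x₁) ≤ M) (hM₂ : D.p (D.prox x₂) ≤ M) 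
    (hlayer : |D.p (D.prox x₁) - D.p (D.prox x₂)| ≤ Real.sqrt w) : 
    ‖R (x₁ - x₂)‖ ≤ (14 * M + 11) * Real.sqrt w := by
  set y₁ := D.prox x₁ with hy₁
  set y₂ := D.prox x₂ with hy₂
  set P₁ := D.p y₁ with hP₁
  set P₂ := D.p y₂ with hP₂
  set b₁ := argm D.p S x₁ with hb₁
  set b₂ := argm D.p S x₂ with hb₂
  set s := Real.sqrt w with hs
  have hs0 : 0 < s := Real.sqrt_pos.mpr hw
  have hss : s ^ 2 = w := Real.sq_sqrt hw.le
  set ψ : X →L[ℝ] ℝ := σ • D.yf i with hψ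
  have hψle' : ∀ z, |ψ z| ≤ rr S R z := by
    intro z
    rw [hψ, smul_apply, smul_eq_mul, abs_mul]
    calc |σ| * |D.yf i z| ≤ 1 * |D.yf i z| := mul_le_mul_of_nonneg_right hσ (abs_nonneg _)
      _ ≤ _ := by rw [one_mul]; exact D.hyf i z
  have hψle : ∀ z, ψ z ≤ rr S R z := fun z => (le_abs_self _).trans (hψle' z)
  have hlow₁ : P₁ - w ≤ ψ y₁ := by
    have e1 : ψ y₁ = |D.yf i y₁| := h₁.sgn
    have e2 : |D.yf i y₁| + D.c * |D.gf i y₁| = P₁ := h₁.act
    have e3 := h₁.le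
    unfold wt at e3
    have := D.hτ0 i
    rw [e1]
    linarith
  have hlow₂ : P₂ - w ≤ ψ y₂ := by
    have e1 : ψ y₂ = |D.yf i y₂| := h₂.sgn
    have e2 : |D.yf i y₂| + D.c * |D.gf i y₂| = P₂ := h₂.act
    have e3 := h₂.le
    unfold wt at e3
    have := D.hτ0 i
    rw [e1]
    linarith
  have hP₁0 : 0 < P₁ := h₁.pos
  have hP₂0 : 0 < P₂ := h₂.pos
  have hM0 : 0 < M := lt_of_lt_of_le hP₁0 hM₁
  -- the `b`-part
  have hb : ‖b₁ - b₂‖ ≤ (6 * M + 10) * s := by
    have hc₁ := D.argm_close hP₁0 hw hψle hlow₁ h₁.max (b₁ - b₂)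
    have hc₂ := D.argm_close hP₂0 hw hψle hlow₂ h₂.max (b₁ - b₂)
    rw [← hb₁] at hc₁
    rw [← hb₂] at hc₂
    have e1 : ‖b₁ - b₂‖ ^ 2 = ⟪b₁, b₁ - b₂⟫_ℝ - ⟪b₂, b₁ - b₂⟫_ℝ := by
      rw [← inner_sub_left, real_inner_self_eq_norm_sq]
    have h3 : |(P₁ - P₂) * ψ (S (b₁ - b₂))| ≤ s * (2 * ‖b₁ - b₂‖) := by
      rw [abs_mul]
      apply mul_le_mul hlayer _ (abs_nonneg _) hs0.le
      exact (hψle' _).trans (rr_S_le D.hS D.hR _)
    have h4 := (abs_le.mp hc₁).2
    have h5 := (abs_le.mp hc₂).1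
    have h6 := (abs_le.mp h3).2
    set n := ‖b₁ - b₂‖ with hn
    have hn0 : 0 ≤ n := norm_nonneg _
    have h7 : (3 * P₁ + 4) * s * n ≤ (3 * M + 4) * s * n := by
      apply mul_le_mul_of_nonneg_right _ hn0
      apply mul_le_mul_of_nonneg_right _ hs0.le
      linarith
    have h8 : (3 * P₂ + 4) * s * n ≤ (3 * M + 4) * s * n := by
      apply mul_le_mul_of_nonneg_right _ hn0
      apply mul_le_mul_of_nonneg_right _ hs0.le
      linarith
    have h9 : n * n ≤ n * ((6 * M + 10) * s) := by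
      have e2 : D.p (D.prox x₁) = P₁ := rfl
      have e3 : D.p (D.prox x₂) = P₂ := rfl
      rw [e2] at h4
      rw [e3] at h5
      nlinarith
    rcases hn0.eq_or_lt with h0 | h0
    · rw [← h0]; positivity
    · exact le_of_mul_le_mul_left h9 h0
  -- the `y`-part
  have hy : ‖R (y₁ - y₂)‖ ≤ (8 * M + 1) * s := by
    have h3 := rr_convex S R y₁ y₂
    have h4 : rr S R y₁ ≤ P₁ := D.rr_le_p y₁
    have h5 : rr S R y₂ ≤ P₂ := D.rr_le_p y₂
    have h6 : P₁ + P₂ - 2 * w ≤ rr S R (y₁ + y₂) := by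
      have := hψle (y₁ + y₂)
      rw [map_add] at this
      linarith
    have h7 : (P₁ + P₂) ^ 2 - 4 * w * (P₁ + P₂) ≤ rr S R (y₁ + y₂) ^ 2 := by
      have h8 : 0 ≤ rr S R (y₁ + y₂) := apply_nonneg _ _
      rcases le_total (2 * w) (P₁ + P₂) with h | h
      · nlinarith
      · nlinarith
    have h9 : 0 ≤ rr S R y₁ := apply_nonneg _ _
    have h10 : 0 ≤ rr S R y₂ := apply_nonneg _ _
    have h11 : rr S R y₁ ^ 2 ≤ P₁ ^ 2 := pow_le_pow_left₀ h9 h4 2
    have h12 : rr S R y₂ ^ 2 ≤ P₂ ^ 2 := pow_le_pow_left₀ h10 h5 2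
    have h13 : (P₁ - P₂) ^ 2 ≤ w := by
      rw [← hss]
      exact sq_le_sq' (abs_le.mp hlayer).1 (abs_le.mp hlayer).2
    have h14 : ‖R (y₁ - y₂)‖ ^ 2 ≤ (8 * M + 1) * w := by nlinarith
    apply (abs_le_of_sq_le_sq' _ (by positivity)).2
    rw [mul_pow, hss]
    have h15 : (8 * M + 1) * w ≤ (8 * M + 1) ^ 2 * w := by
      apply mul_le_mul_of_nonneg_right _ hw.le
      nlinarith
    linarith
  have e : x₁ - x₂ = (y₁ - y₂) + S (b₁ - b₂) := by
    rw [map_sub, hy₁, hy₂]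
    unfold prox
    abel
  rw [e, map_add]
  refine (norm_add_le _ _).trans ?_
  have h3 : ‖R (S (b₁ - b₂))‖ ≤ ‖b₁ - b₂‖ := (D.hR _).trans (D.hS _)
  linarith

end Cfg

end Pool.Agent.Helper58.Gat
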