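import Mathlib

/-!
# Functionals with `∑ |g_n(y)|^s ≤ C ‖y‖^s` on a uniformly convex space
-/

open Finset

namespace Pool.Agent.Helper58.Gat

section

variable {Y : Type*} [NormedAddCommGroup Y] [NormedSpace ℝ Y]

lemma exists_unit_apply {f : Y →L[ℝ] ℝ} {r : ℝ} (h : r < ‖f‖) : ∃ x : Y, ‖x‖ ≤ 1 ∧ r < f x := by
  obtain ⟨x, hx, hr⟩ := f.exists_lt_apply_of_lt_opNorm h
  rcases le_total 0 (f x) with h0 | h0
  · exact ⟨x, hx.le, by rwa [Real.norm_of_nonneg h0] at hr⟩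
  · refine ⟨-x, by rw [norm_neg]; exact hx.le, ?_⟩
    rw [Real.norm_of_nonpos h0] at hr
    rwa [map_neg]

lemma exists_norming (F : Submodule ℝ (Y →L[ℝ] ℝ)) [FiniteDimensional ℝ F] {ε : ℝ} (hε : 0 < ε) : 
    ∃ W : Finset Y, (∀ w ∈ W, ‖w‖ ≤ 1) ∧ ∀ f ∈ F, ∃ w ∈ W, (1 - ε) * ‖f‖ ≤ f w := by
  classical
  have hK : IsCompact {f : F | ‖f‖ = 1} := by
    have h : {f : F | ‖f‖ = 1} = Metric.sphere (0 : F) 1 := by
      ext f
      have h' : dist f 0 = ‖f‖ := dist_zero_right f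
      rw [Metric.mem_sphere, h']
      exact Iff.rfl
    rw [h]
    exact isCompact_sphere (0 : F) 1
  have h1 : ∀ f : F, ∃ w : Y, ‖w‖ ≤ 1 ∧ (‖f‖ = 1 → 1 - ε < f.1 w) := by
    intro f
    by_cases hf : ‖f‖ = 1
    · have hf' : ‖f.1‖ = 1 := hf
      obtain ⟨w, hw, hw2⟩ := exists_unit_apply (f := f.1) (r := 1 - ε) (by rw [hf']; linarith)
      exact ⟨w, hw, fun _ => hw2⟩
    · exact ⟨0, by simp, fun h => absurd h hf⟩
  choose w hw1 hw2 using h1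
  obtain ⟨t, _, ht⟩ := hK.elim_nhds_subcover (fun f => {f' : F | 1 - ε < f'.1 (w f)}) (by
    intro f hf
    apply IsOpen.mem_nhds
    · apply isOpen_lt continuous_const
      have : Continuous (fun f' : F => (f' : Y →L[ℝ] ℝ) (w f)) := 
        (ContinuousLinearMap.apply ℝ ℝ (w f)).continuous.comp continuous_subtype_val
      exact this
    · exact hw2 f hf)
  refine ⟨insert 0 (t.image w), ?_, ?_⟩
  · intro v hv
    rw [Finset.mem_insert, Finset.mem_image] at hv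
    rcases hv with rfl | ⟨f, _, rfl⟩
    · simp
    · exact hw1 f
  · intro f hf
    by_cases hf0 : f = 0
    · exact ⟨0, by simp, by simp [hf0]⟩
    · have hn : 0 < ‖f‖ := norm_pos_iff.mpr hf0
      set f' : F := ‖f‖⁻¹ • ⟨f, hf⟩ with hf'
      have h3 : ‖f'‖ = 1 := by
        show ‖‖f‖⁻¹ • f‖ = 1
        rw [norm_smul, norm_inv, norm_norm, inv_mul_cancel₀ hn.ne']
      obtain ⟨g, hg, hg2⟩ := Set.mem_iUnion₂.mp (ht h3)
      refine ⟨w g, Finset.mem_insert_of_mem (Finset.mem_image_of_mem _ hg), ?_⟩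
      have h4 : 1 - ε < f'.1 (w g) := hg2
      have h5 : f'.1 (w g) = ‖f‖⁻¹ * f (w g) := by
        rw [hf']
        rfl
      rw [h5, ← div_eq_inv_mul, lt_div_iff₀ hn] at h4
      exact h4.le

/-- a unit functional vanishing on a finite set -/
lemma exists_vanishing (hinf : ¬ FiniteDimensional ℝ Y) (W : Finset Y) : 
    ∃ g : Y →L[ℝ] ℝ, ‖g‖ = 1 ∧ ∀ w ∈ W, g w = 0 := by
  set V : Submodule ℝ Y := Submodule.span ℝ (W : Set Y) with hV
  have hVfin : FiniteDimensional ℝ V := FiniteDimensional.span_finset ℝ W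
  have hVne : V ≠ ⊤ := by
    intro h
    apply hinf
    rw [h] at hVfin
    exact Module.finite_def.mpr (Module.Finite.iff_fg.mp hVfin)
  obtain ⟨x, hx⟩ : ∃ x, x ∉ V := by
    by_contra hcon
    push Not at hcon
    exact hVne (Submodule.eq_top_iff'.mpr hcon)
  obtain ⟨f, u, hfu, hux⟩ := geometric_hahn_banach_closed_point (s := (V : Set Y)) V.convex 
    V.closed_of_finiteDimensional hx
  have hu : 0 < u := by
    have := hfu 0 V.zero_mem
    rwa [map_zero] at this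
  have hf0 : ∀ v ∈ V, f v = 0 := by
    intro v hv
    by_contra hne
    have h1 := hfu ((u / f v) • v) (V.smul_mem _ hv)
    rw [map_smul, smul_eq_mul, div_mul_cancel₀ _ hne] at h1
    exact lt_irrefl _ h1
  have hfne : f ≠ 0 := by
    rintro rfl
    simp at hux
    linarith
  have hn : 0 < ‖f‖ := norm_pos_iff.mpr hfne
  refine ⟨‖f‖⁻¹ • f, ?_, ?_⟩
  · rw [norm_smul, norm_inv, norm_norm, inv_mul_cancel₀ hn.ne']
  · intro w hw
    rw [smul_apply, hf0 w (Submodule.subset_span hw), smul_zero]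

/-- the key inequality -/
lemma key_ineq {δ : ℝ} (hδ1 : δ ≤ 1) 
    (hUC : ∀ x y : Y, ‖x‖ ≤ 1 → ‖y‖ ≤ 1 → 1 / 2 ≤ ‖x - y‖ → ‖x + y‖ ≤ 2 - δ) 
    {f h : Y →L[ℝ] ℝ} {w : Y} (hw : ‖w‖ ≤ 1) (hf : (1 - δ / 2) * ‖f‖ ≤ f w) (hh : h w = 0) {V : ℝ} 
    (hV : 0 ≤ V) (hfV : ‖f‖ ≤ V) (hhV : ‖h‖ ≤ V) : ‖f + h‖ ≤ (2 - δ / 2) * V := by
  by_contra hcon
  push Not at hcon
  obtain ⟨x, hx, hx2⟩ := exists_unit_apply hcon
  rw [add_apply] at hx2
  have hle : ∀ (φ : Y →L[ℝ] ℝ) (z : Y), φ z ≤ ‖φ‖ * ‖z‖ := fun φ z => 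
    (le_abs_self _).trans (φ.le_opNorm z)
  have h1 : f x ≤ ‖f‖ := (hle f x).trans (mul_le_of_le_one_right (norm_nonneg _) hx)
  have h2 : h x ≤ ‖h‖ := (hle h x).trans (mul_le_of_le_one_right (norm_nonneg _) hx)
  have h3 : (1 - δ / 2) * V < f x := by linarith
  have h4 : (1 - δ / 2) * V < h x := by linarith
  have hfpos : 0 < ‖f‖ := by
    have : 0 ≤ (1 - δ / 2) * V := mul_nonneg (by linarith) hV
    linarith
  have h5 : (2 - δ) * ‖f‖ < ‖f‖ * ‖x + w‖ := by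
    have h6 := hle f (x + w)
    rw [map_add] at h6
    nlinarith
  have h6 : 2 - δ < ‖x + w‖ := by
    rw [mul_comm] at h5
    exact lt_of_mul_lt_mul_left h5 hfpos.le
  have h7 : ‖x - w‖ < 1 / 2 := by
    by_contra h8
    push Not at h8
    have := hUC x w hx hw h8
    linarith
  have h8 : h x ≤ V * (1 / 2) := by
    have h9 := hle h (x - w)
    rw [map_sub, hh, sub_zero] at h9
    calc h x ≤ ‖h‖ * ‖x - w‖ := h9
      _ ≤ V * (1 / 2) := mul_le_mul hhV h7.le (norm_nonneg _) hV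
  nlinarith


/-- a sequence of functionals with the mixing inequality -/
lemma exists_seq (hinf : ¬ FiniteDimensional ℝ Y) {δ : ℝ} (hδ : 0 < δ) (hδ1 : δ ≤ 1) 
    (hUC : ∀ x y : Y, ‖x‖ ≤ 1 → ‖y‖ ≤ 1 → 1 / 2 ≤ ‖x - y‖ → ‖x + y‖ ≤ 2 - δ) : 
    ∃ g : ℕ → (Y →L[ℝ] ℝ), (∀ n, ‖g n‖ = 1) ∧ ∀ (a : ℕ → ℝ) (i m j : ℕ) (V : ℝ), 0 ≤ V → 
      ‖∑ n ∈ Ico i m, a n • g n‖ ≤ V → ‖∑ n ∈ Ico (m + 1) j, a n • g n‖ ≤ V → 
        ‖∑ n ∈ Ico i m, a n • g n + ∑ n ∈ Ico (m + 1) j, a n • g n‖ ≤ (2 - δ / 2) * V := by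
  classical
  obtain ⟨σ, hP, hr⟩ := exists_seq_of_forall_finset_exists 
    (α := Submodule ℝ (Y →L[ℝ] ℝ) × (Y →L[ℝ] ℝ) × Finset Y)
    (fun q => FiniteDimensional ℝ q.1 ∧ q.2.1 ∈ q.1 ∧ ‖q.2.1‖ = 1 ∧ (∀ w ∈ q.2.2, ‖w‖ ≤ 1) ∧ 
      ∀ f ∈ q.1, ∃ w ∈ q.2.2, (1 - δ / 2) * ‖f‖ ≤ f w)
    (fun q q' => q.1 ≤ q'.1 ∧ ∀ w ∈ q.2.2, q'.2.1 w = 0) (by
      intro s hs
      obtain ⟨g, hg1, hg2⟩ := exists_vanishing hinf (s.biUnion (fun q => q.2.2))
      set F : Submodule ℝ (Y →L[ℝ] ℝ) := (s.attach.sup (fun q => q.1.1)) ⊔ Submodule.span ℝ {g} with hF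
      have h1 : ∀ q : s, FiniteDimensional ℝ q.1.1 := fun q => (hs q.1 q.2).1
      have h2 : FiniteDimensional ℝ F := by
        have := Submodule.finiteDimensional_finset_sup s.attach (fun q => q.1.1)
        infer_instance
      obtain ⟨W, hW1, hW2⟩ := exists_norming F (ε := δ / 2) (by linarith)
      refine ⟨(F, g, W), ⟨h2, ?_, hg1, hW1, hW2⟩, ?_⟩
      · exact (le_sup_right : Submodule.span ℝ {g} ≤ F) (Submodule.mem_span_singleton_self g)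
      · intro q hq
        refine ⟨?_, ?_⟩
        · exact le_trans (Finset.le_sup (f := fun q : s => q.1.1) (Finset.mem_attach s ⟨q, hq⟩)) le_sup_left
        · intro w hw
          exact hg2 w (Finset.mem_biUnion.mpr ⟨q, hq, hw⟩))
  refine ⟨fun n => (σ n).2.1, fun n => (hP n).2.2.1, ?_⟩
  intro a i m j V hV hf hh
  have hmono : ∀ n, n ≤ m → (σ n).1 ≤ (σ m).1 := by
    intro n hn
    rcases hn.eq_or_lt with h | h
    · rw [h]
    · exact (hr n m h).1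
  have hfm : ∑ n ∈ Ico i m, a n • (σ n).2.1 ∈ (σ m).1 := by
    apply Submodule.sum_mem
    intro n hn
    rw [Finset.mem_Ico] at hn
    exact Submodule.smul_mem _ _ (hmono n hn.2.le (hP n).2.1)
  obtain ⟨w, hw, hw2⟩ := (hP m).2.2.2.2 _ hfm
  apply key_ineq hδ1 hUC ((hP m).2.2.2.1 w hw) hw2 _ hV hf hh
  rw [_root_.sum_apply]
  apply Finset.sum_eq_zero
  intro n hn
  rw [Finset.mem_Ico] at hn
  rw [smul_apply, (hr m n (by omega)).2 w hw, smul_zero]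

/-- the halving point -/
lemma exists_half (τ : ℕ → ℝ) (hτ : ∀ n, 0 ≤ τ n) (i j : ℕ) (hij : i < j) : 
    ∃ m, i ≤ m ∧ m < j ∧ ∑ n ∈ Ico i m, τ n ≤ (∑ n ∈ Ico i j, τ n) / 2 ∧ 
      ∑ n ∈ Ico (m + 1) j, τ n ≤ (∑ n ∈ Ico i j, τ n) / 2 := by
  classical
  set A := ∑ n ∈ Ico i j, τ n with hA
  have hA0 : 0 ≤ A := Finset.sum_nonneg (fun n _ => hτ n)
  have hex : ∃ m, i ≤ m ∧ A / 2 ≤ ∑ n ∈ Ico i (m + 1), τ n := by
    refine ⟨j - 1, by omega, ?_⟩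
    have : j - 1 + 1 = j := by omega
    rw [this]
    linarith
  set m := Nat.find hex with hm
  have hspec := Nat.find_spec hex
  rw [← hm] at hspec
  have hmj : m < j := by
    by_contra hcon
    push Not at hcon
    have h1 : m ≤ j - 1 := by
      apply Nat.find_min' hex
      refine ⟨by omega, ?_⟩
      have : j - 1 + 1 = j := by omega
      rw [this]
      linarith
    omega
  refine ⟨m, hspec.1, hmj, ?_, ?_⟩
  · rcases hspec.1.eq_or_lt with h | h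
    · rw [← h, Finset.Ico_self, Finset.sum_empty]
      linarith
    · have h1 := Nat.find_min hex (m := m - 1) (by omega)
      push Not at h1
      have h2 := h1 (by omega)
      have : m - 1 + 1 = m := by omega
      rw [this] at h2
      exact h2.le
  · have h1 : ∑ n ∈ Ico i (m + 1), τ n + ∑ n ∈ Ico (m + 1) j, τ n = A := 
      Finset.sum_Ico_consecutive τ (by omega) (by omega)
    linarith [hspec.2]

/-- the upper estimate -/
lemma upper_est {δ : ℝ} (hδ : 0 < δ) (hδ1 : δ ≤ 1) (g : ℕ → (Y →L[ℝ] ℝ)) (hg : ∀ n, ‖g n‖ = 1)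
    (hmix : ∀ (a : ℕ → ℝ) (i m j : ℕ) (V : ℝ), 0 ≤ V → 
      ‖∑ n ∈ Ico i m, a n • g n‖ ≤ V → ‖∑ n ∈ Ico (m + 1) j, a n • g n‖ ≤ V → 
        ‖∑ n ∈ Ico i m, a n • g n + ∑ n ∈ Ico (m + 1) j, a n • g n‖ ≤ (2 - δ / 2) * V) : 
    ∃ q : ℕ, ∀ (a τ : ℕ → ℝ), (∀ n, 0 ≤ τ n) → (∀ n, |a n| ≤ τ n ^ q) → ∀ (ℓ i j : ℕ), 
      j ≤ i + ℓ → ∀ B : ℝ, 0 ≤ B → ∑ n ∈ Ico i j, τ n ^ (q + 1) ≤ B ^ (q + 1) → 
        ‖∑ n ∈ Ico i j, a n • g n‖ ≤ 8 / δ * B ^ q := by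
  set μ := (1 - δ / 4) / (1 - δ / 8) with hμ
  have h8 : 0 < 1 - δ / 8 := by linarith
  have hμ1 : μ < 1 := by rw [hμ, div_lt_one h8]; linarith
  have hμ0 : 0 ≤ μ := div_nonneg (by linarith) h8.le
  obtain ⟨q, hq⟩ := exists_pow_lt_of_lt_one (show (0 : ℝ) < 1 / 2 by norm_num) hμ1
  have hq' : μ ^ (q + 1) ≤ 1 / 2 := by
    have : μ ^ (q + 1) ≤ μ ^ q := pow_le_pow_of_le_one hμ0 hμ1.le (by omega)
    linarith
  set lam : ℝ := (1 / 2 : ℝ) ^ (((q + 1 : ℕ) : ℝ)⁻¹) with hlam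
  have hlam0 : 0 < lam := Real.rpow_pos_of_pos (by norm_num) _
  have hlamq : lam ^ (q + 1) = 1 / 2 := Real.rpow_inv_natCast_pow (by norm_num) (by omega)
  have hμlam : μ ≤ lam := by
    rw [← pow_le_pow_iff_left₀ hμ0 hlam0.le (by omega : q + 1 ≠ 0), hlamq]
    exact hq'
  have hlamest : (2 - δ / 2) * lam ^ q ≤ 1 - δ / 8 := by
    have h1 : lam ^ q * lam = 1 / 2 := by rw [← pow_succ, hlamq]
    have h2 : 1 - δ / 4 ≤ lam * (1 - δ / 8) := by
      have := mul_le_mul_of_nonneg_right hμlam h8.le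
      rw [hμ, div_mul_cancel₀ _ h8.ne'] at this
      exact this
    have h3 : (2 - δ / 2) * (lam ^ q * lam) ≤ (1 - δ / 8) * lam := by rw [h1]; linarith
    have h4 : ((2 - δ / 2) * lam ^ q) * lam ≤ (1 - δ / 8) * lam := by linarith
    exact le_of_mul_le_mul_right h4 hlam0
  refine ⟨q, ?_⟩
  intro a τ hτ ha ℓ
  induction ℓ with
  | zero =>
    intro i j hij B hB _
    rw [Finset.Ico_eq_empty (by omega), Finset.sum_empty, norm_zero]
    positivity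
  | succ ℓ ih =>
    intro i j hij B hB hsum
    rcases Nat.lt_or_ge i j with h | h
    swap
    · rw [Finset.Ico_eq_empty (by omega), Finset.sum_empty, norm_zero]
      positivity
    obtain ⟨m, him, hmj, hm1, hm2⟩ := exists_half (fun n => τ n ^ (q + 1)) 
      (fun n => pow_nonneg (hτ n) _) i j h
    have hBl : (lam * B) ^ (q + 1) = B ^ (q + 1) / 2 := by
      rw [mul_pow, hlamq]; ring
    have h1 := ih i m (by omega) (lam * B) (by positivity) (by rw [hBl]; linarith)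
    have h2 := ih (m + 1) j (by omega) (lam * B) (by positivity) (by rw [hBl]; linarith)
    have hV : 0 ≤ 8 / δ * (lam * B) ^ q := by positivity
    have h3 := hmix a i m j _ hV h1 h2
    have hsplit : ∑ n ∈ Ico i j, a n • g n = 
        (∑ n ∈ Ico i m, a n • g n + ∑ n ∈ Ico (m + 1) j, a n • g n) + a m • g m := by
      rw [← Finset.sum_Ico_consecutive _ him hmj.le, Finset.sum_eq_sum_Ico_succ_bot hmj]
      abel
    have hτm : τ m ≤ B := by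
      have h4 : τ m ^ (q + 1) ≤ B ^ (q + 1) := 
        (Finset.single_le_sum (f := fun n => τ n ^ (q + 1)) (fun n _ => pow_nonneg (hτ n) _) 
          (Finset.mem_Ico.mpr ⟨him, hmj⟩)).trans hsum
      exact (pow_le_pow_iff_left₀ (hτ m) hB (by omega)).mp h4
    have h5 : ‖a m • g m‖ ≤ B ^ q := by
      rw [norm_smul, hg, mul_one, Real.norm_eq_abs]
      exact (ha m).trans (pow_le_pow_left₀ (hτ m) hτm q)
    rw [hsplit]
    refine (norm_add_le _ _).trans ?_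
    have h6 : (2 - δ / 2) * (8 / δ * (lam * B) ^ q) = (8 / δ * B ^ q) * ((2 - δ / 2) * lam ^ q) := by
      rw [mul_pow]; ring
    have h7 : (8 / δ * B ^ q) * ((2 - δ / 2) * lam ^ q) ≤ (8 / δ * B ^ q) * (1 - δ / 8) := 
      mul_le_mul_of_nonneg_left hlamest (by positivity)
    have h9 : (8 / δ * B ^ q) * (1 - δ / 8) = 8 / δ * B ^ q - B ^ q := by
      field_simp
    linarith

/-- **Functionals on a uniformly convex space with a power estimate.** -/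
theorem exists_functionals (hinf : ¬ FiniteDimensional ℝ Y) 
    (hUC : ∃ δ : ℝ, 0 < δ ∧ ∀ x y : Y, ‖x‖ ≤ 1 → ‖y‖ ≤ 1 → 1 / 2 ≤ ‖x - y‖ → ‖x + y‖ ≤ 2 - δ) : 
    ∃ (g : ℕ → (Y →ₗ[ℝ] ℝ)) (v : ℕ → Y) (q : ℕ) (C : ℝ), 0 ≤ C ∧ (∀ n y, |g n y| ≤ ‖y‖) ∧ 
      (∀ n, ‖v n‖ ≤ 1) ∧ (∀ n, 1 / 2 ≤ g n (v n)) ∧ 
      ∀ (y : Y) (N : ℕ), ∑ n ∈ range N, |g n y| ^ (q + 1) ≤ (C * ‖y‖) ^ (q + 1) := by
  obtain ⟨δ', hδ', hUC'⟩ := hUC
  set δ := min δ' 1 with hδdef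
  have hδ : 0 < δ := lt_min hδ' one_pos
  have hδ1 : δ ≤ 1 := min_le_right _ _
  have hUC : ∀ x y : Y, ‖x‖ ≤ 1 → ‖y‖ ≤ 1 → 1 / 2 ≤ ‖x - y‖ → ‖x + y‖ ≤ 2 - δ := by
    intro x y hx hy hxy
    have := hUC' x y hx hy hxy
    have := min_le_left δ' 1
    linarith
  obtain ⟨g, hg, hmix⟩ := exists_seq hinf hδ hδ1 hUC
  obtain ⟨q, hq⟩ := upper_est hδ hδ1 g hg hmix
  have hv : ∀ n, ∃ v : Y, ‖v‖ ≤ 1 ∧ 1 / 2 < g n v := fun n => 
    exists_unit_apply (by rw [hg]; norm_num)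
  choose v hv1 hv2 using hv
  refine ⟨fun n => (g n : Y →ₗ[ℝ] ℝ), v, q, 8 / δ, by positivity, ?_, hv1, fun n => (hv2 n).le, ?_⟩
  · intro n y
    have := (g n).le_opNorm y
    rw [hg, one_mul, Real.norm_eq_abs] at this
    exact this
  intro y N
  show ∑ n ∈ range N, |g n y| ^ (q + 1) ≤ (8 / δ * ‖y‖) ^ (q + 1)
  set A := ∑ n ∈ range N, |g n y| ^ (q + 1) with hA
  have hA0 : 0 ≤ A := Finset.sum_nonneg (fun n _ => by positivity)
  set B : ℝ := A ^ (((q + 1 : ℕ) : ℝ)⁻¹) with hB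
  have hB0 : 0 ≤ B := Real.rpow_nonneg hA0 _
  have hBq : B ^ (q + 1) = A := Real.rpow_inv_natCast_pow hA0 (by omega)
  set a : ℕ → ℝ := fun n => SignType.sign (g n y) * |g n y| ^ q with ha
  have h1 : ∀ n, |a n| ≤ |g n y| ^ q := by
    intro n
    rw [ha]
    simp only
    rw [abs_mul, abs_pow, abs_abs]
    apply mul_le_of_le_one_left (by positivity)
    rcases lt_trichotomy (g n y) 0 with h | h | h <;> simp [h]
  have h2 := hq a (fun n => |g n y|) (fun n => abs_nonneg _) h1 N 0 N (by omega) B hB0 (by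
    rw [hBq, hA, Finset.range_eq_Ico])
  rw [← Finset.range_eq_Ico] at h2
  have h3 : (∑ n ∈ range N, a n • g n) y = A := by
    rw [_root_.sum_apply, hA]
    apply Finset.sum_congr rfl
    intro n _
    rw [smul_apply, smul_eq_mul, ha]
    simp only
    rw [pow_succ, mul_right_comm, sign_mul_self, mul_comm]
  have h4 : A ≤ 8 / δ * B ^ q * ‖y‖ := by
    rw [← h3]
    have h7 := (∑ n ∈ range N, a n • g n).le_opNorm y
    rw [Real.norm_eq_abs] at h7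
    refine (le_abs_self _).trans (h7.trans ?_)
    exact mul_le_mul_of_nonneg_right h2 (norm_nonneg _)
  have h5 : B ≤ 8 / δ * ‖y‖ := by
    rcases hB0.eq_or_lt with h | h
    · rw [← h]; positivity
    · have h6 : B ^ q * B ≤ B ^ q * (8 / δ * ‖y‖) := by
        rw [← pow_succ, hBq]
        calc A ≤ 8 / δ * B ^ q * ‖y‖ := h4
          _ = B ^ q * (8 / δ * ‖y‖) := by ring
      exact le_of_mul_le_mul_left h6 (by positivity)
  rw [← hBq]
  exact pow_le_pow_left₀ hB0 h5 _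

end

end Pool.Agent.Helper58.Gat
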