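import Pool.Agent.Helper58.Gat.Family
import Pool.Agent.Helper58.Gat.UC

/-!
# From a uniformly convex equivalent norm to the functionals
-/

open Finset

namespace Pool.Agent.Helper58.Gat

theorem exists_Fun (X : Type) [NormedAddCommGroup X] [NormedSpace ℝ X] 
    (hinf : ¬ FiniteDimensional ℝ X) (M : X → ℝ) (hadd : ∀ x y : X, M (x + y) ≤ M x + M y)
    (hsmul : ∀ (c : ℝ) (x : X), M (c • x) = |c| * M x) {a b : ℝ} (ha : 0 < a) (hb : 0 < b) 
    (hab : ∀ x : X, a * ‖x‖ ≤ M x ∧ M x ≤ b * ‖x‖) 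
    (hUC : ∀ ε : ℝ, 0 < ε → ∃ δ : ℝ, 0 < δ ∧ ∀ x y : X,
            M x ≤ 1 → M y ≤ 1 → ε ≤ M (x - y) → M (x + y) ≤ 2 - δ) : Nonempty (Fun X) := by
  have hnonneg : ∀ x, 0 ≤ M x := fun x => le_trans (by positivity) (hab x).1
  have hzero : ∀ x, M x = 0 → x = 0 := by
    intro x hx
    have h1 := (hab x).1
    rw [hx] at h1
    have h2 : ‖x‖ ≤ 0 := by
      by_contra hcon
      push Not at hcon
      have := mul_pos ha hcon
      linarith
    exact norm_le_zero_iff.mp h2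
  -- the renormed space
  obtain ⟨g, v, q, C, hC0, hg1, hv, hgv, hgC⟩ : ∃ (g : ℕ → (X →ₗ[ℝ] ℝ)) (v : ℕ → X) (q : ℕ) (C : ℝ), 
      0 ≤ C ∧ (∀ n y, |g n y| ≤ M y) ∧ (∀ n, M (v n) ≤ 1) ∧ (∀ n, 1 / 2 ≤ g n (v n)) ∧ 
      ∀ (y : X) (N : ℕ), ∑ n ∈ range N, |g n y| ^ (q + 1) ≤ (C * M y) ^ (q + 1) := by
    let mX : Module ℝ X := inferInstance
    let nrm : Norm X := ⟨M⟩
    have core : @NormedSpace.Core ℝ X _ _ mX nrm := 
      { norm_nonneg := hnonneg
        norm_smul := fun c x => by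
          show M (c • x) = ‖c‖ * M x
          rw [hsmul, Real.norm_eq_abs]
        norm_triangle := hadd
        norm_eq_zero_iff := fun x => ⟨hzero x, fun h => by
          show M x = 0
          rw [h]
          have := hsmul 0 0
          simpa using this⟩ }
    let nY : NormedAddCommGroup X := @NormedAddCommGroup.ofCore ℝ X _ _ mX nrm core
    let sY : @NormedSpace ℝ X _ nY.toSeminormedAddCommGroup := @NormedSpace.ofCore ℝ X _ nY.toSeminormedAddCommGroup mX core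
    have := @exists_functionals X nY sY hinf (by
      obtain ⟨δ, hδ, h⟩ := hUC (1 / 2) (by norm_num)
      exact ⟨δ, hδ, h⟩)
    exact this
  refine ⟨⟨fun n => (a⁻¹ • g n).mkContinuous (a⁻¹ * b) ?_, fun n => a • v n, a⁻¹ * b, q, 
    C * (a⁻¹ * b), by positivity, ?_, ?_, ?_, ?_⟩⟩
  · intro x
    rw [LinearMap.smul_apply, smul_eq_mul, Real.norm_eq_abs, abs_mul, abs_of_pos (inv_pos.mpr ha), 
      mul_assoc]
    exact mul_le_mul_of_nonneg_left ((hg1 n x).trans (hab x).2) (by positivity)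
  · intro n x
    show |(a⁻¹ • g n) x| ≤ _
    rw [LinearMap.smul_apply, smul_eq_mul, abs_mul, abs_of_pos (inv_pos.mpr ha), mul_assoc]
    exact mul_le_mul_of_nonneg_left ((hg1 n x).trans (hab x).2) (by positivity)
  · intro n
    rw [norm_smul, Real.norm_eq_abs, abs_of_pos ha]
    exact (hab (v n)).1.trans (hv n)
  · intro n
    show 1 / 2 ≤ (a⁻¹ • g n) (a • v n)
    rw [LinearMap.smul_apply, map_smul, smul_eq_mul, smul_eq_mul, ← mul_assoc, 
      inv_mul_cancel₀ ha.ne', one_mul]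
    exact hgv n
  · intro x N
    have h1 : ∀ n, |(a⁻¹ • g n) x| ^ (q + 1) = a⁻¹ ^ (q + 1) * |g n x| ^ (q + 1) := by
      intro n
      rw [LinearMap.smul_apply, smul_eq_mul, abs_mul, abs_of_pos (inv_pos.mpr ha), mul_pow]
    show ∑ n ∈ range N, |(a⁻¹ • g n) x| ^ (q + 1) ≤ _
    simp_rw [h1]
    rw [← Finset.mul_sum]
    calc a⁻¹ ^ (q + 1) * ∑ n ∈ range N, |g n x| ^ (q + 1) ≤ a⁻¹ ^ (q + 1) * (C * M x) ^ (q + 1) := 
          mul_le_mul_of_nonneg_left (hgC x N) (by positivity)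
      _ = (a⁻¹ * (C * M x)) ^ (q + 1) := by rw [mul_pow a⁻¹]
      _ ≤ (C * (a⁻¹ * b) * ‖x‖) ^ (q + 1) := by
          apply pow_le_pow_left₀
          · have := hnonneg x
            positivity
          · calc a⁻¹ * (C * M x) ≤ a⁻¹ * (C * (b * ‖x‖)) := by
                  apply mul_le_mul_of_nonneg_left _ (by positivity)
                  exact mul_le_mul_of_nonneg_left (hab x).2 hC0
              _ = _ := by ring

end Pool.Agent.Helper58.Gat
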