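import Pool.Agent.Helper58.Gat.Main

/-!
# The main theorem, strong form

The set of the points of Fréchet differentiability of the new norm meets every affine subspace of
a certain finite dimension `d` in a Lebesgue null set.
-/

open Filter Topology MeasureTheory

open scoped InnerProductSpace

namespace Pool.Agent.Helper58.Gat

theorem strong (X : Type) [NormedAddCommGroup X] [NormedSpace ℝ X] [CompleteSpace X]
    [TopologicalSpace.SeparableSpace X] (hinf : ¬ FiniteDimensional ℝ X)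
    (hM : ∃ M : X → ℝ, (∀ x y : X, M (x + y) ≤ M x + M y) ∧
          (∀ (c : ℝ) (x : X), M ((c : ℝ) • x) = |c| * M x) ∧
          (∃ a b : ℝ, 0 < a ∧ 0 < b ∧ ∀ x : X, a * ‖x‖ ≤ M x ∧ M x ≤ b * ‖x‖) ∧
          ∀ ε : ℝ, 0 < ε → ∃ δ : ℝ, 0 < δ ∧ ∀ x y : X,
            M x ≤ 1 → M y ≤ 1 → ε ≤ M (x - y) → M (x + y) ≤ 2 - δ) :
      ∃ N : X → ℝ, (∀ x y : X, N (x + y) ≤ N x + N y) ∧
        (∀ (c : ℝ) (x : X), N ((c : ℝ) • x) = |c| * N x) ∧
        (∃ a b : ℝ, 0 < a ∧ 0 < b ∧ ∀ x : X, a * ‖x‖ ≤ N x ∧ N x ≤ b * ‖x‖) ∧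
        (∀ x : X, x ≠ 0 → ∃ f : X →L[ℝ] ℝ, ∀ v : X,
            HasDerivAt (fun t : ℝ => N (x + (t : ℝ) • v)) (f v) (0 : ℝ)) ∧
        @MeasurableSet X (borel X) {x : X | DifferentiableAt ℝ N x} ∧
        ∃ d : ℕ, ∀ u : Fin d → X, LinearIndependent ℝ u → ∀ x : X,
          volume {t : Fin d → ℝ | DifferentiableAt ℝ N (x + ∑ i, t i • u i)} = 0 := by
  obtain ⟨M, hadd, hsmul, ⟨a, b, ha, hb, hab⟩, hUC⟩ := hM
  obtain ⟨F⟩ := exists_Fun X hinf M hadd hsmul ha hb hab hUC
  obtain ⟨S, R, D, ν, hSd, hRi, hν, hgf, hc, hτ⟩ := exists_family F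
  haveI : Nontrivial X := by
    by_contra hcon
    rw [not_nontrivial_iff_subsingleton] at hcon
    exact hinf inferInstance
  refine ⟨NN D, NN_add_le D, NN_smul D, ⟨1 / 4, 6, by norm_num, by norm_num,
    fun x => ⟨le_NN D x, NN_le D x⟩⟩, fun x hx => gateaux D hSd hx, ?_,
    2 * (F.q + 1) + 1, fun u hu x => ?_⟩
  · letI : MeasurableSpace X := borel X
    haveI : BorelSpace X := ⟨rfl⟩
    exact measurableSet_of_differentiableAt ℝ (NN D)
  · refine measure_mono_null ?_
      (bad_null F D ν hRi hν hgf hc hτ (s := F.q + 1) (d := 2 * (F.q + 1) + 1) rfl rfl u hu x)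
    intro t ht
    have ht' : DifferentiableAt ℝ (NN D) (line u x t) := ht
    have hne : line u x t ≠ 0 := by
      intro h0
      rw [h0] at ht'
      exact not_differentiableAt_zero D ht'
    exact ⟨hne, fun k => bad_of_differentiableAt D hne ht' k⟩

/-- A Borel set which is null on all affine subspaces of dimension `d` is Aronszajn null. -/
theorem aron_of_plane (X : Type) [NormedAddCommGroup X] [NormedSpace ℝ X]
    (hinf : ¬ FiniteDimensional ℝ X) (A : Set X) (hA : @MeasurableSet X (borel X) A) (d : ℕ)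
    (hd : ∀ u : Fin d → X, LinearIndependent ℝ u → ∀ x : X,
      volume {t : Fin d → ℝ | x + ∑ i, t i • u i ∈ A} = 0)
    (e : ℕ → X) (he : Dense ((Submodule.span ℝ (Set.range e) : Submodule ℝ X) : Set X)) :
    ∃ B : ℕ → Set X, (∀ n : ℕ, @MeasurableSet X (borel X) (B n)) ∧ A = ⋃ n, B n ∧
      ∀ (n : ℕ) (y : X), volume {t : ℝ | y + t • e n ∈ B n} = 0 := by
  letI : MeasurableSpace X := borel X
  haveI : BorelSpace X := ⟨rfl⟩
  obtain ⟨κ, j, hj, hspan, hind⟩ := exists_linearIndependent' ℝ e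
  have hκ : Infinite κ := by
    by_contra hcon
    rw [not_infinite_iff_finite] at hcon
    have h1 : FiniteDimensional ℝ (Submodule.span ℝ (Set.range (e ∘ j))) :=
      FiniteDimensional.span_of_finite ℝ (Set.finite_range _)
    have h2 : IsClosed ((Submodule.span ℝ (Set.range (e ∘ j)) : Submodule ℝ X) : Set X) :=
      Submodule.closed_of_finiteDimensional _
    rw [hspan] at h1 h2
    have h3 : ((Submodule.span ℝ (Set.range e) : Submodule ℝ X) : Set X) = Set.univ := by
      rw [← h2.closure_eq]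
      exact he.closure_eq
    have h4 : Submodule.span ℝ (Set.range e) = ⊤ := by
      apply SetLike.coe_injective
      rw [h3, Submodule.top_coe]
    rw [h4] at h1
    exact hinf (Module.Finite.equiv Submodule.topEquiv)
  obtain ⟨emb⟩ : Nonempty (Fin d ↪ κ) := ⟨(Fin.valEmbedding).trans (Infinite.natEmbedding κ)⟩
  set idx : Fin d → ℕ := fun i => j (emb i) with hidx
  have hu : LinearIndependent ℝ (fun i : Fin d => e (idx i)) := hind.comp emb emb.injective
  obtain ⟨B, hB1, hB2, hB3⟩ := decomp d (fun i => e (idx i)) A hA (hd _ hu)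
  refine ⟨fun n => A ∩ ⋃ i : {i : Fin d // idx i = n}, B i.1, ?_, ?_, ?_⟩
  · intro n
    exact hA.inter (MeasurableSet.iUnion (fun i => hB1 i.1))
  · refine Set.Subset.antisymm (fun x hx => ?_) (Set.iUnion_subset fun n => Set.inter_subset_left)
    obtain ⟨i, hi⟩ := Set.mem_iUnion.mp (hB3 hx)
    exact Set.mem_iUnion.mpr ⟨idx i, hx, Set.mem_iUnion.mpr ⟨⟨i, rfl⟩, hi⟩⟩
  · intro n y
    have h1 : volume {t : ℝ | y + t • e n ∈ ⋃ i : {i : Fin d // idx i = n}, B i.1} = 0 := by
      have h2 : {t : ℝ | y + t • e n ∈ ⋃ i : {i : Fin d // idx i = n}, B i.1} =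
          ⋃ i : {i : Fin d // idx i = n}, {t : ℝ | y + t • e n ∈ B i.1} := by
        ext t
        simp only [Set.mem_iUnion, Set.mem_ofPred_eq]
      rw [h2]
      apply measure_iUnion_null
      rintro ⟨i, rfl⟩
      exact hB2 i y
    exact measure_mono_null (fun t ht => ht.2) h1

end Pool.Agent.Helper58.Gat
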